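import Mathlib

/-!
# Outer space of rank two: definitions
-/

namespace Pool.Agent.Helper32.Outer

/-- The free group of rank two. -/
abbrev F2 : Type := FreeGroup (Fin 2)

/-- `g` is primitive if it belongs to some free basis of `F2`. -/
def IsPrimitive (g : F2) : Prop := ∃ (ι : Type) (b : FreeGroupBasis ι F2), g ∈ Set.range b

/-- The closed segment between two points of a metric space. -/
def seg {X : Type} [MetricSpace X] (x y : X) : Set X := {z | dist x z + dist z y = dist x y}

/-- Metric trees (real trees): geodesic metric spaces satisfying the four point condition. -/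
structure IsMetricTree (X : Type) [MetricSpace X] : Prop where
  geodesic : ∀ x y : X, ∃ γ : ℝ → X, γ 0 = x ∧ γ (dist x y) = y ∧
    ∀ s ∈ Set.Icc 0 (dist x y), ∀ t ∈ Set.Icc 0 (dist x y), dist (γ s) (γ t) = |s - t|
  four_point : ∀ x y z w : X,
    dist x y + dist z w ≤ max (dist x z + dist y w) (dist x w + dist y z)

/-- Given a set `V` of vertices, two distinct vertices span an edge if the segment between them
contains no other vertex. The edge is then the segment `seg u v`, of length `dist u v`. -/
def IsEdge {X : Type} [MetricSpace X] (V : Set X) (u v : X) : Prop :=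
  u ∈ V ∧ v ∈ V ∧ u ≠ v ∧ ∀ z ∈ V, z ∈ seg u v → z = u ∨ z = v

/-- `V` is the vertex set of a simplicial structure on the metric tree `X`: the edges cover `X`,
two different edges meet at most in vertices, and segments contain finitely many vertices. -/
structure IsVertexSet {X : Type} [MetricSpace X] (V : Set X) : Prop where
  cover : ∀ x : X, ∃ u v, IsEdge V u v ∧ x ∈ seg u v
  inter : ∀ u v u' v' z, IsEdge V u v → IsEdge V u' v' → z ∈ seg u v → z ∈ seg u' v' → z ∉ V →
    (u' = u ∧ v' = v) ∨ (u' = v ∧ v' = u)
  finite : ∀ u ∈ V, ∀ v ∈ V, {z | z ∈ V ∧ z ∈ seg u v}.Finite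

/-- A point of the unprojectivized Outer space `cv_2` (before identification): a simplicial metric
tree with a minimal, free, isometric action of `F2`. -/
structure TreeAction where
  X : Type
  [metric : MetricSpace X]
  [action : MulAction F2 X]
  [nonempty : Nonempty X]
  isometric : ∀ (g : F2) (x y : X), dist (g • x) (g • y) = dist x y
  tree : IsMetricTree X
  V : Set X
  vertexSet : IsVertexSet V
  invariant : ∀ (g : F2), ∀ v ∈ V, g • v ∈ V
  free : ∀ (g : F2) (x : X), g • x = x → g = 1
  minimal : ∀ Y : Set X, Y.Nonempty → (∀ (g : F2), ∀ y ∈ Y, g • y ∈ Y) →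
    (∀ y ∈ Y, ∀ z ∈ Y, seg y z ⊆ Y) → Y = Set.univ

attribute [instance] TreeAction.metric TreeAction.action TreeAction.nonempty

/-- The co-volume of `T` is `c`: the quotient graph has finitely many edges, with total length `c`.
Here `R` is a system of representatives of the `F2`-orbits of (unoriented) edges. -/
def HasCovolume (T : TreeAction) (c : ℝ) : Prop :=
  ∃ R : Finset (T.X × T.X), (∀ e ∈ R, IsEdge T.V e.1 e.2) ∧
    (∀ u v, IsEdge T.V u v → ∃! e, e ∈ R ∧ ∃ g : F2,
      (g • e.1 = u ∧ g • e.2 = v) ∨ (g • e.1 = v ∧ g • e.2 = u)) ∧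
    ∑ e ∈ R, dist e.1 e.2 = c

/-- The translation length of `g` on `T`. -/
noncomputable def tl (T : TreeAction) (g : F2) : ℝ := ⨅ x : T.X, dist x (g • x)

/-- `T` and `T'` are the same point: there is an equivariant isometry between them. -/
def Same (T T' : TreeAction) : Prop :=
  ∃ f : T.X ≃ᵢ T'.X, ∀ (g : F2) (x : T.X), f (g • x) = g • f x

/-- `S` is `CV_2`-rigid: the translation lengths of the elements of `S` determine every point of
`CV_2` (the trees of co-volume one). -/
def CV2Rigid (S : Set F2) : Prop :=
  ∀ T T' : TreeAction, HasCovolume T 1 → HasCovolume T' 1 → (∀ g ∈ S, tl T g = tl T' g) →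
    Same T T'

end Pool.Agent.Helper32.Outer
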