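import Mathlib
import Pool.Agent.Helper32.Outer.Defs

namespace Pool.Agent.Helper32.Outer

/-- Spaces satisfying the four point condition. -/
class ZeroHyp (V : Type) [PseudoMetricSpace V] : Prop where
  four : ∀ x y z w : V, dist x y + dist z w ≤ max (dist x z + dist y w) (dist x w + dist y z)

/-- Formal points on segments of `V`. -/
structure PP (V : Type) [PseudoMetricSpace V] where
  u : V
  v : V
  t : ℝ
  t0 : 0 ≤ t
  t1 : t ≤ dist u v

namespace PP

variable {V : Type} [PseudoMetricSpace V]

def pt (x : PP V) (b : Bool) : V := if b then x.v else x.u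
def off (x : PP V) (b : Bool) : ℝ := if b then dist x.u x.v - x.t else x.t

lemma off_nonneg (x : PP V) (b : Bool) : 0 ≤ x.off b := by
  cases b
  · simpa [off] using x.t0
  · simpa [off] using x.t1

/-- One of the four terms of the distance. -/
def term (x y : PP V) (b c : Bool) : ℝ := dist (x.pt b) (y.pt c) - x.off b - y.off c

/-- The distance between formal points. -/
noncomputable def D (x y : PP V) : ℝ :=
  max (max (term x y false false) (term x y false true))
    (max (term x y true false) (term x y true true))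

lemma term_le_D (x y : PP V) (b c : Bool) : term x y b c ≤ D x y := by
  cases b <;> cases c <;> simp [D]

lemma exists_D (x y : PP V) : ∃ b c, D x y = term x y b c := by
  rw [D]
  rcases max_choice (max (term x y false false) (term x y false true))
    (max (term x y true false) (term x y true true)) with h | h
  · rcases max_choice (term x y false false) (term x y false true) with h' | h'
    · exact ⟨false, false, by rw [h, h']⟩
    · exact ⟨false, true, by rw [h, h']⟩
  · rcases max_choice (term x y true false) (term x y true true) with h' | h'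
    · exact ⟨true, false, by rw [h, h']⟩
    · exact ⟨true, true, by rw [h, h']⟩

lemma D_le {x y : PP V} {r : ℝ} (h : ∀ b c, term x y b c ≤ r) : D x y ≤ r := by
  obtain ⟨b, c, hbc⟩ := exists_D x y
  rw [hbc]; exact h b c

lemma term_comm (x y : PP V) (b c : Bool) : term x y b c = term y x c b := by
  rw [term, term, dist_comm]; ring

lemma D_comm (x y : PP V) : D x y = D y x := by
  apply le_antisymm
  · apply D_le; intro b c; rw [term_comm]; exact term_le_D _ _ _ _
  · apply D_le; intro b c; rw [term_comm]; exact term_le_D _ _ _ _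

lemma D_same (p q : V) (t t' : ℝ) (t0 : 0 ≤ t) (t1 : t ≤ dist p q) (t0' : 0 ≤ t')
    (t1' : t' ≤ dist p q) : D (⟨p, q, t, t0, t1⟩ : PP V) ⟨p, q, t', t0', t1'⟩ = |t - t'| := by
  apply le_antisymm
  · apply D_le
    intro b c
    have h1 := le_abs_self (t - t')
    have h2 := neg_abs_le (t - t')
    have h3 := abs_nonneg (t - t')
    cases b <;> cases c <;> simp [term, pt, off, dist_comm q p] <;> linarith
  · rcases abs_cases (t - t') with ⟨h, _⟩ | ⟨h, _⟩
    · rw [h]
      refine le_trans (le_of_eq ?_) (term_le_D _ _ true false)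
      simp [term, pt, off, dist_comm q p]
    · rw [h]
      refine le_trans (le_of_eq ?_) (term_le_D _ _ false true)
      simp [term, pt, off]

lemma D_self (x : PP V) : D x x = 0 := by
  obtain ⟨u, v, t, t0, t1⟩ := x
  rw [D_same, sub_self, abs_zero]

lemma D_four [ZeroHyp V] (x y z w : PP V) :
    D x y + D z w ≤ max (D x z + D y w) (D x w + D y z) := by
  obtain ⟨b, c, hbc⟩ := exists_D x y
  obtain ⟨d, e, hde⟩ := exists_D z w
  have h := ZeroHyp.four (x.pt b) (y.pt c) (z.pt d) (w.pt e)
  have h1 := term_le_D x z b d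
  have h2 := term_le_D y w c e
  have h3 := term_le_D x w b e
  have h4 := term_le_D y z c d
  rw [hbc, hde]
  simp only [term] at *
  rcases le_max_iff.1 h with h | h
  · refine le_trans ?_ (le_max_left _ _); linarith
  · refine le_trans ?_ (le_max_right _ _); linarith

lemma D_triangle [ZeroHyp V] (x y z : PP V) : D x z ≤ D x y + D y z := by
  have h := D_four x z y y
  rw [D_self, add_zero, D_comm z y, max_self] at h
  exact h

noncomputable instance [ZeroHyp V] : PseudoMetricSpace (PP V) where
  dist := D
  dist_self := D_self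
  dist_comm := D_comm
  dist_triangle := D_triangle

/-- A vertex as a formal point. -/
def vtx (a : V) : PP V := ⟨a, a, 0, le_rfl, dist_nonneg⟩

lemma D_vtx (a : V) (x : PP V) :
    D (vtx a) x = max (dist a x.u - x.t) (dist a x.v - (dist x.u x.v - x.t)) := by
  have h : ∀ b c, term (vtx a) x b c = dist a (x.pt c) - x.off c := by
    intro b c
    cases b <;> simp [term, vtx, pt, off]
  rw [D, h, h, h, h, max_self]
  simp [pt, off]

lemma D_vtx_vtx (a b : V) : D (vtx a) (vtx b) = dist a b := by
  rw [D_vtx]; simp [vtx]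

lemma D_vtx_pt (x : PP V) (b : Bool) : D (vtx (x.pt b)) x = x.off b := by
  rw [D_vtx]
  have h0 := x.t0
  have h1 := x.t1
  cases b <;> simp [pt, off, dist_comm x.v x.u] <;> linarith

end PP

section

variable (V : Type) [PseudoMetricSpace V] [ZeroHyp V]

/-- The metric tree spanned by `V`. -/
abbrev Hull : Type := SeparationQuotient (PP V)

variable {V}

/-- The embedding of `V` in the tree it spans. -/
noncomputable def emb (a : V) : Hull V := SeparationQuotient.mk (PP.vtx a)

/-- The point at distance `t` from `u` on the segment from `u` to `v`. -/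
noncomputable def mkPt (u v : V) (t : ℝ) (t0 : 0 ≤ t) (t1 : t ≤ dist u v) : Hull V :=
  SeparationQuotient.mk ⟨u, v, t, t0, t1⟩

lemma dist_mk (x y : PP V) :
    dist (SeparationQuotient.mk x : Hull V) (SeparationQuotient.mk y) = PP.D x y := rfl

lemma dist_emb (a b : V) : dist (emb a) (emb b) = dist a b := by
  rw [emb, emb, dist_mk, PP.D_vtx_vtx]

lemma dist_mkPt (u v : V) (t t' : ℝ) (t0 : 0 ≤ t) (t1 : t ≤ dist u v) (t0' : 0 ≤ t')
    (t1' : t' ≤ dist u v) : dist (mkPt u v t t0 t1) (mkPt u v t' t0' t1') = |t - t'| :=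
  PP.D_same _ _ _ _ _ _ _ _

lemma dist_emb_mkPt_left (u v : V) (t : ℝ) (t0 : 0 ≤ t) (t1 : t ≤ dist u v) :
    dist (emb u) (mkPt u v t t0 t1) = t := by
  exact PP.D_vtx_pt (⟨u, v, t, t0, t1⟩ : PP V) false

lemma dist_emb_mkPt_right (u v : V) (t : ℝ) (t0 : 0 ≤ t) (t1 : t ≤ dist u v) :
    dist (emb v) (mkPt u v t t0 t1) = dist u v - t := by
  exact PP.D_vtx_pt (⟨u, v, t, t0, t1⟩ : PP V) true

lemma mkPt_congr (u v : V) {t t' : ℝ} (h : t = t') (t0 : 0 ≤ t) (t1 : t ≤ dist u v)
    (t0' : 0 ≤ t') (t1' : t' ≤ dist u v) : mkPt u v t t0 t1 = mkPt u v t' t0' t1' := by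
  subst h; rfl

lemma hull_four (x y z w : Hull V) :
    dist x y + dist z w ≤ max (dist x z + dist y w) (dist x w + dist y z) := by
  obtain ⟨x, rfl⟩ := SeparationQuotient.surjective_mk x
  obtain ⟨y, rfl⟩ := SeparationQuotient.surjective_mk y
  obtain ⟨z, rfl⟩ := SeparationQuotient.surjective_mk z
  obtain ⟨w, rfl⟩ := SeparationQuotient.surjective_mk w
  exact PP.D_four x y z w

end

/-- In a metric space with the four point condition, points of a segment are determined by their
distances to the ends. -/
lemma eq_of_four {X : Type} [MetricSpace X]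
    (h4 : ∀ x y z w : X, dist x y + dist z w ≤ max (dist x z + dist y w) (dist x w + dist y z))
    {a b x m : X} (h1 : dist a x = dist a m) (h2 : dist x b = dist m b)
    (h3 : dist a x + dist x b = dist a b) : x = m := by
  have h := h4 x m a b
  have e1 : dist x a + dist m b = dist a b := by rw [dist_comm x a, ← h2]; exact h3
  have e2 : dist x b + dist m a = dist a b := by rw [dist_comm m a, ← h1, add_comm]; exact h3
  rw [e1, e2, max_self] at h
  have h5 : dist x m ≤ 0 := by linarith
  exact dist_le_zero.1 h5

/-- Collinearity: two points of a segment. -/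
lemma dist_of_mem_seg {X : Type} [MetricSpace X]
    (h4 : ∀ x y z w : X, dist x y + dist z w ≤ max (dist x z + dist y w) (dist x w + dist y z))
    {a b x y : X} (hx : x ∈ seg a b) (hy : y ∈ seg a b) : dist x y = |dist a x - dist a y| := by
  have hx' : dist a x + dist x b = dist a b := hx
  have hy' : dist a y + dist y b = dist a b := hy
  have h := h4 x y a b
  rw [dist_comm x a, dist_comm y a] at h
  apply le_antisymm
  · rcases le_total (dist a x) (dist a y) with h1 | h1
    · rw [abs_of_nonpos (by linarith)]
      rcases le_max_iff.1 h with h | h <;> linarith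
    · rw [abs_of_nonneg (by linarith)]
      rcases le_max_iff.1 h with h | h <;> linarith
  · rw [abs_sub_le_iff]
    constructor
    · linarith [dist_triangle a y x, dist_comm x y]
    · linarith [dist_triangle a x y]

section

variable {V : Type} [PseudoMetricSpace V] [ZeroHyp V]

lemma mkPt_mem_seg (u v : V) (t : ℝ) (t0 : 0 ≤ t) (t1 : t ≤ dist u v) :
    mkPt u v t t0 t1 ∈ seg (emb u) (emb v) := by
  change dist _ _ + dist _ _ = dist _ _
  rw [dist_emb_mkPt_left, dist_comm _ (emb v), dist_emb_mkPt_right, dist_emb]; ring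

lemma exists_mem_seg (z : Hull V) : ∃ u v : V, z ∈ seg (emb u) (emb v) := by
  obtain ⟨⟨u, v, t, t0, t1⟩, rfl⟩ := SeparationQuotient.surjective_mk z
  exact ⟨u, v, mkPt_mem_seg u v t t0 t1⟩

/-- The hull is a metric tree. -/
theorem hull_isMetricTree : IsMetricTree (Hull V) where
  four_point := hull_four
  geodesic := by
    intro x y
    obtain ⟨x, rfl⟩ := SeparationQuotient.surjective_mk x
    obtain ⟨y, rfl⟩ := SeparationQuotient.surjective_mk y
    obtain ⟨b, c, hbc⟩ := PP.exists_D x y
    have hx0 := x.off_nonneg b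
    have hy0 := y.off_nonneg c
    have hD : 0 ≤ PP.D x y := by
      have := dist_nonneg (x := (SeparationQuotient.mk x : Hull V)) (y := SeparationQuotient.mk y)
      rwa [dist_mk] at this
    have hterm : PP.D x y = dist (x.pt b) (y.pt c) - x.off b - y.off c := hbc
    have e1 : dist (emb (x.pt b)) (SeparationQuotient.mk x) = x.off b := PP.D_vtx_pt x b
    have e2 : dist (emb (y.pt c)) (SeparationQuotient.mk y) = y.off c := PP.D_vtx_pt y c
    have e3 : dist (SeparationQuotient.mk x : Hull V) (SeparationQuotient.mk y) = PP.D x y := rfl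
    have e4 := dist_emb (x.pt b) (y.pt c)
    -- the point x on the long segment
    have hx1 : x.off b ≤ dist (x.pt b) (y.pt c) := by linarith
    have hy1 : dist (x.pt b) (y.pt c) - y.off c ≤ dist (x.pt b) (y.pt c) := by linarith
    have hy2 : 0 ≤ dist (x.pt b) (y.pt c) - y.off c := by linarith
    have f1 : (SeparationQuotient.mk x : Hull V) =
        mkPt (x.pt b) (y.pt c) (x.off b) hx0 hx1 := by
      have k1 := dist_triangle (SeparationQuotient.mk x : Hull V) (SeparationQuotient.mk y)
        (emb (y.pt c))
      have k2 := dist_triangle (emb (x.pt b)) (SeparationQuotient.mk x : Hull V) (emb (y.pt c))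
      rw [dist_comm (SeparationQuotient.mk y) (emb (y.pt c)), e2, e3] at k1
      rw [e1, e4] at k2
      have k3 : dist (SeparationQuotient.mk x : Hull V) (emb (y.pt c)) =
        dist (x.pt b) (y.pt c) - x.off b := by linarith
      apply eq_of_four hull_four (a := emb (x.pt b)) (b := emb (y.pt c))
      · rw [e1, dist_emb_mkPt_left]
      · rw [k3, dist_comm _ (emb (y.pt c)), dist_emb_mkPt_right]
      · rw [e1, k3, e4]; ring
    have f2 : (SeparationQuotient.mk y : Hull V) =
        mkPt (x.pt b) (y.pt c) (dist (x.pt b) (y.pt c) - y.off c) hy2 hy1 := by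
      have k1 := dist_triangle (emb (x.pt b)) (SeparationQuotient.mk x : Hull V)
        (SeparationQuotient.mk y)
      have k2 := dist_triangle (emb (x.pt b)) (SeparationQuotient.mk y : Hull V) (emb (y.pt c))
      rw [dist_comm (SeparationQuotient.mk y) (emb (y.pt c)), e2, e4] at k2
      rw [e1, e3] at k1
      have k3 : dist (emb (x.pt b)) (SeparationQuotient.mk y : Hull V) =
        dist (x.pt b) (y.pt c) - y.off c := by linarith
      apply eq_of_four hull_four (a := emb (x.pt b)) (b := emb (y.pt c))
      · rw [k3, dist_emb_mkPt_left]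
      · rw [dist_comm _ (emb (y.pt c)), e2, dist_comm _ (emb (y.pt c)), dist_emb_mkPt_right]; ring
      · rw [k3, dist_comm _ (emb (y.pt c)), e2, e4]; ring
    have hcl : ∀ s : ℝ, 0 ≤ max 0 (min (x.off b + s) (dist (x.pt b) (y.pt c))) ∧
        max 0 (min (x.off b + s) (dist (x.pt b) (y.pt c))) ≤ dist (x.pt b) (y.pt c) := by
      intro s
      exact ⟨le_max_left _ _, max_le dist_nonneg (min_le_right _ _)⟩
    have hval : ∀ s ∈ Set.Icc 0 (PP.D x y),
        max 0 (min (x.off b + s) (dist (x.pt b) (y.pt c))) = x.off b + s := by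
      intro s hs
      rw [min_eq_left (by linarith [hs.2]), max_eq_right (by linarith [hs.1])]
    refine ⟨fun s => mkPt (x.pt b) (y.pt c) _ (hcl s).1 (hcl s).2, ?_, ?_, ?_⟩
    · rw [f1]
      apply mkPt_congr
      rw [hval 0 ⟨le_rfl, hD⟩, add_zero]
    · rw [e3, f2]
      apply mkPt_congr
      rw [hval _ ⟨hD, le_rfl⟩]; linarith
    · intro s hs t ht
      rw [e3] at hs ht
      rw [dist_mkPt, hval s hs, hval t ht]
      congr 1; ring

end

section action

set_option linter.unusedSectionVars false

variable {V : Type} [PseudoMetricSpace V] [ZeroHyp V] {F : Type} [Group F] [MulAction F V]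
  [IsIsometricSMul F V]

instance : MulAction F (PP V) where
  smul g x := ⟨g • x.u, g • x.v, x.t, x.t0, by rw [dist_smul]; exact x.t1⟩
  one_smul x := by
    obtain ⟨u, v, t, t0, t1⟩ := x
    change (⟨(1 : F) • u, (1 : F) • v, t, _, _⟩ : PP V) = _
    congr 1 <;> exact one_smul F _
  mul_smul g h x := by
    obtain ⟨u, v, t, t0, t1⟩ := x
    change (⟨(g * h) • u, (g * h) • v, t, _, _⟩ : PP V) = ⟨g • h • u, g • h • v, t, _, _⟩
    congr 1 <;> exact mul_smul g h _

lemma PP.smul_pt (g : F) (x : PP V) (b : Bool) : (g • x).pt b = g • x.pt b := by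
  cases b <;> rfl

lemma PP.smul_off (g : F) (x : PP V) (b : Bool) : (g • x).off b = x.off b := by
  cases b
  · rfl
  · change dist (g • x.u) (g • x.v) - x.t = dist x.u x.v - x.t
    rw [dist_smul]

lemma PP.D_smul (g : F) (x y : PP V) : PP.D (g • x) (g • y) = PP.D x y := by
  have h : ∀ b c, PP.term (g • x) (g • y) b c = PP.term x y b c := by
    intro b c
    rw [PP.term, PP.term, PP.smul_pt, PP.smul_pt, PP.smul_off, PP.smul_off, dist_smul]
  rw [PP.D, PP.D, h, h, h, h]

instance : IsIsometricSMul F (PP V) := ⟨fun g => Isometry.of_dist_eq (fun x y => PP.D_smul g x y)⟩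

instance : IsIsometricSMul F (Hull V) := ⟨fun g => Isometry.of_dist_eq (fun x y => by
  obtain ⟨x, rfl⟩ := SeparationQuotient.surjective_mk x
  obtain ⟨y, rfl⟩ := SeparationQuotient.surjective_mk y
  exact PP.D_smul g x y)⟩

lemma smul_emb (g : F) (a : V) : g • (emb a : Hull V) = emb (g • a) := rfl

end action

end Pool.Agent.Helper32.Outer
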