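import Mathlib
import Pool.Agent.Helper32.Outer.Hull

namespace Pool.Agent.Helper32.Outer

section

variable {X : Type} [MetricSpace X] {F : Type} [Group F] [MulAction F X]
  (iso : ∀ (g : F) (x y : X), dist (g • x) (g • y) = dist x y)

include iso

lemma dist_pow_le (g : F) (y : X) (n : ℕ) : dist y (g ^ n • y) ≤ n * dist y (g • y) := by
  induction n with
  | zero => simp
  | succ n ih =>
    have h1 := dist_triangle y (g ^ n • y) (g ^ (n + 1) • y)
    have h2 : dist (g ^ n • y) (g ^ (n + 1) • y) = dist y (g • y) := by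
      rw [pow_succ, mul_smul, iso]
    rw [h2] at h1
    push_cast
    linarith

/-- Lower bound for displacement. -/
lemma le_displacement (g : F) (x0 : X)
    (h : ∀ n : ℕ, dist x0 (g ^ n • x0) = n * dist x0 (g • x0)) (y : X) :
    dist x0 (g • x0) ≤ dist y (g • y) := by
  by_contra hcon
  push Not at hcon
  obtain ⟨n, hn⟩ := exists_nat_gt (2 * dist x0 y / (dist x0 (g • x0) - dist y (g • y)))
  have hpos : 0 < dist x0 (g • x0) - dist y (g • y) := by linarith
  rw [div_lt_iff₀ hpos] at hn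
  have h1 := dist_pow_le iso g y n
  have h2 := dist_triangle x0 y (g ^ n • y)
  have h3 := dist_triangle x0 (g ^ n • y) (g ^ n • x0)
  rw [iso (g ^ n) y x0, dist_comm y x0, h n] at h3
  nlinarith

lemma iInf_displacement (g : F) (x0 : X)
    (h : ∀ n : ℕ, dist x0 (g ^ n • x0) = n * dist x0 (g • x0)) :
    ⨅ x : X, dist x (g • x) = dist x0 (g • x0) := by
  have : Nonempty X := ⟨x0⟩
  apply le_antisymm
  · exact ciInf_le ⟨0, by rintro _ ⟨x, rfl⟩; exact dist_nonneg⟩ x0
  · exact le_ciInf (le_displacement iso g x0 h)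

lemma iInf_conj (g h : F) : ⨅ x : X, dist x ((h * g * h⁻¹) • x) = ⨅ x : X, dist x (g • x) := by
  rw [← (MulAction.toPerm h : Equiv.Perm X).iInf_comp]
  congr 1
  ext x
  rw [MulAction.toPerm_apply, mul_smul, mul_smul, inv_smul_smul, iso]

lemma iInf_inv (g : F) : ⨅ x : X, dist x (g⁻¹ • x) = ⨅ x : X, dist x (g • x) := by
  congr 1
  ext x
  rw [← iso g x (g⁻¹ • x), smul_inv_smul, dist_comm]

/-- Points on an axis lie in every nonempty invariant convex subset. -/
lemma axis_mem
    (h4 : ∀ x y z w : X, dist x y + dist z w ≤ max (dist x z + dist y w) (dist x w + dist y z))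
    (Y : Set X) (hne : Y.Nonempty) (hinv : ∀ (g : F), ∀ y ∈ Y, g • y ∈ Y)
    (hconv : ∀ y ∈ Y, ∀ z ∈ Y, seg y z ⊆ Y) (g : F) (p : X) (hpos : 0 < dist p (g • p))
    (h : ∀ n : ℕ, dist p (g ^ n • p) = n * dist p (g • p)) : p ∈ Y := by
  obtain ⟨y, hy⟩ := hne
  obtain ⟨n, hn⟩ := exists_nat_gt (dist p y / dist p (g • p))
  rw [div_lt_iff₀ hpos] at hn
  apply hconv _ (hinv (g ^ n)⁻¹ y hy) _ (hinv (g ^ n) y hy)
  change dist _ p + dist p _ = dist _ _
  have e1 : dist ((g ^ n)⁻¹ • p) p = n * dist p (g • p) := by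
    rw [← iso (g ^ n), smul_inv_smul, h]
  have e2 : dist p (g ^ n • p) = n * dist p (g • p) := h n
  have e3 : dist ((g ^ n)⁻¹ • p) (g ^ n • p) = 2 * (n * dist p (g • p)) := by
    rw [← iso (g ^ n), smul_inv_smul, smul_smul, ← pow_add, h]
    push_cast; ring
  have e4 : dist ((g ^ n)⁻¹ • p) ((g ^ n)⁻¹ • y) = dist p y := iso _ _ _
  have e5 : dist (g ^ n • p) (g ^ n • y) = dist p y := iso _ _ _
  set A := (g ^ n)⁻¹ • y
  set B := g ^ n • y
  set P := (g ^ n)⁻¹ • p
  set Q := g ^ n • p
  set L := (n : ℝ) * dist p (g • p)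
  have t1 : dist P p ≤ dist P A + dist A p := dist_triangle _ _ _
  have t2 : dist p Q ≤ dist p B + dist B Q := dist_triangle _ _ _
  have t3 : dist A Q ≤ dist A p + dist p Q := dist_triangle _ _ _
  have t4 : dist A B ≤ dist A p + dist p B := dist_triangle _ _ _
  have c1 := dist_comm A P
  have c2 := dist_comm B Q
  have c3 := dist_comm A p
  have c4 := dist_comm B p
  have c5 := dist_comm P p
  have c6 := dist_comm A B
  -- step 1
  have s1 : dist A p + dist p Q ≤ dist A Q := by
    have := h4 p A P Q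
    rcases le_max_iff.1 this with h5 | h5
    · linarith
    · exfalso; linarith
  -- step 2
  have s2 : dist A p + dist p B ≤ dist A B := by
    have := h4 p B A Q
    rcases le_max_iff.1 this with h5 | h5
    · exfalso; linarith
    · linarith
  linarith

end

end Pool.Agent.Helper32.Outer
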