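import Mathlib

namespace Pool.Agent.Helper32.Outer

open FreeGroup

section lcp

variable {β : Type*} [DecidableEq β]

/-- Longest common initial part of two lists. -/
def lcp : List β → List β → List β
  | [], _ => []
  | _ :: _, [] => []
  | a :: l, b :: m => if a = b then a :: lcp l m else []

lemma lcp_nil_left (m : List β) : lcp [] m = [] := by
  cases m <;> rfl

lemma lcp_nil_right (l : List β) : lcp l [] = [] := by
  cases l <;> rfl

lemma lcp_cons_cons (a b : β) (l m : List β) :
    lcp (a :: l) (b :: m) = if a = b then a :: lcp l m else [] := rfl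

lemma lcp_comm (l m : List β) : lcp l m = lcp m l := by
  induction l generalizing m with
  | nil => rw [lcp_nil_left, lcp_nil_right]
  | cons a l ih =>
    cases m with
    | nil => rfl
    | cons b m =>
      rw [lcp_cons_cons, lcp_cons_cons]
      by_cases h : a = b
      · subst h
        rw [if_pos rfl, if_pos rfl, ih]
      · rw [if_neg h, if_neg (Ne.symm h)]

lemma lcp_prefix_left (l m : List β) : lcp l m <+: l := by
  induction l generalizing m with
  | nil => rw [lcp_nil_left]
  | cons a l ih =>
    cases m with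
    | nil => exact List.nil_prefix
    | cons b m =>
      rw [lcp_cons_cons]
      split_ifs with h
      · exact (List.prefix_cons_inj a).2 (ih m)
      · exact List.nil_prefix

lemma lcp_prefix_right (l m : List β) : lcp l m <+: m := by
  rw [lcp_comm]; exact lcp_prefix_left m l

lemma prefix_lcp {p l m : List β} (h1 : p <+: l) (h2 : p <+: m) : p <+: lcp l m := by
  induction p generalizing l m with
  | nil => exact List.nil_prefix
  | cons a p ih =>
    obtain ⟨t, rfl⟩ := h1
    obtain ⟨t', ht'⟩ := h2
    cases m with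
    | nil => simp at ht'
    | cons b m =>
      rw [List.cons_append, List.cons.injEq] at ht'
      obtain ⟨rfl, rfl⟩ := ht'
      rw [List.cons_append, lcp_cons_cons, if_pos rfl, List.prefix_cons_inj]
      exact ih (List.prefix_append _ _) (List.prefix_append _ _)

/-- Ultrametric property of common initial parts. -/
lemma lcp_ultra (l m n : List β) : lcp l m <+: lcp l n ∨ lcp m n <+: lcp l n := by
  rcases List.prefix_or_prefix_of_prefix (lcp_prefix_right l m) (lcp_prefix_left m n) with h | h
  · exact Or.inl (prefix_lcp (lcp_prefix_left _ _) (h.trans (lcp_prefix_right _ _)))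
  · exact Or.inr (prefix_lcp (h.trans (lcp_prefix_left _ _)) (lcp_prefix_right _ _))

lemma exists_split (l m : List β) : ∃ p u v, l = p ++ u ∧ m = p ++ v ∧ lcp l m = p ∧
    ∀ a ∈ u.head?, ∀ b ∈ v.head?, a ≠ b := by
  induction l generalizing m with
  | nil => exact ⟨[], [], m, rfl, rfl, lcp_nil_left m, by simp⟩
  | cons a l ih =>
    cases m with
    | nil => exact ⟨[], a :: l, [], rfl, rfl, rfl, by simp⟩
    | cons b m =>
      by_cases h : a = b
      · subst h
        obtain ⟨p, u, v, h1, h2, h3, h4⟩ := ih m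
        exact ⟨a :: p, u, v, by rw [h1]; rfl, by rw [h2]; rfl, by
          rw [lcp_cons_cons, if_pos rfl, h3], h4⟩
      · refine ⟨[], a :: l, b :: m, rfl, rfl, by rw [lcp_cons_cons, if_neg h], ?_⟩
        intro x hx y hy
        simp at hx hy
        subst hx; subst hy
        exact h

end lcp

section wt

variable {α : Type*}

/-- Weight of a word. -/
def wt (w : α → ℝ) (L : List (α × Bool)) : ℝ := (L.map (fun p => w p.1)).sum

lemma wt_nil (w : α → ℝ) : wt w [] = 0 := rfl

lemma wt_cons (w : α → ℝ) (x : α × Bool) (L : List (α × Bool)) : wt w (x :: L) = w x.1 + wt w L := by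
  simp [wt]

lemma wt_append (w : α → ℝ) (L M : List (α × Bool)) : wt w (L ++ M) = wt w L + wt w M := by
  simp [wt]

lemma wt_invRev (w : α → ℝ) (L : List (α × Bool)) : wt w (invRev L) = wt w L := by
  induction L with
  | nil => rfl
  | cons a L ih =>
    rw [invRev_cons, wt_append, ih, wt_cons, add_comm]
    congr 1
    simp [wt, invRev]

variable {w : α → ℝ} (hw : ∀ a, 0 < w a)

include hw

lemma wt_nonneg (L : List (α × Bool)) : 0 ≤ wt w L := by
  induction L with
  | nil => exact le_rfl
  | cons a L ih => rw [wt_cons]; exact add_nonneg (hw _).le ih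

lemma wt_pos {L : List (α × Bool)} (h : L ≠ []) : 0 < wt w L := by
  cases L with
  | nil => exact absurd rfl h
  | cons a L => rw [wt_cons]; exact add_pos_of_pos_of_nonneg (hw _) (wt_nonneg hw L)

lemma wt_le_of_prefix {L M : List (α × Bool)} (h : L <+: M) : wt w L ≤ wt w M := by
  obtain ⟨N, rfl⟩ := h
  rw [wt_append]
  linarith [wt_nonneg hw N]

lemma eq_of_prefix_of_wt_le {L M : List (α × Bool)} (h : L <+: M) (h2 : wt w M ≤ wt w L) :
    L = M := by
  obtain ⟨N, rfl⟩ := h
  rw [wt_append] at h2
  by_cases hN : N = []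
  · rw [hN, List.append_nil]
  · linarith [wt_pos hw hN]

end wt

section group

set_option linter.unusedSectionVars false

variable {α : Type*} [DecidableEq α]

lemma isReduced_append {u v : List (α × Bool)} (hu : IsReduced u) (hv : IsReduced v)
    (h : ∀ a ∈ u.getLast?, ∀ b ∈ v.head?, a.1 = b.1 → a.2 = b.2) : IsReduced (u ++ v) := by
  rw [FreeGroup.IsReduced, List.isChain_append]
  exact ⟨hu, hv, h⟩

lemma IsReduced_left {u v : List (α × Bool)} (h : IsReduced (u ++ v)) : IsReduced u := by
  rw [FreeGroup.IsReduced, List.isChain_append] at h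
  exact h.1

lemma IsReduced_right {u v : List (α × Bool)} (h : IsReduced (u ++ v)) : IsReduced v := by
  rw [FreeGroup.IsReduced, List.isChain_append] at h
  exact h.2.1

lemma IsReduced_invRev {u : List (α × Bool)} (h : IsReduced u) : IsReduced (invRev u) := by
  rw [isReduced_iff_reduce_eq, reduce_invRev, h.reduce_eq]

lemma getLast?_invRev (u : List (α × Bool)) :
    (invRev u).getLast? = u.head?.map (fun a => (a.1, !a.2)) := by
  cases u with
  | nil => rfl
  | cons a u => simp [invRev]

/-- Description of the reduced word of `g⁻¹ * h` through the common initial part. -/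
lemma toWord_inv_mul (g h : FreeGroup α) : ∃ p u v, g.toWord = p ++ u ∧ h.toWord = p ++ v ∧
    lcp g.toWord h.toWord = p ∧ (g⁻¹ * h).toWord = invRev u ++ v := by
  obtain ⟨p, u, v, h1, h2, h3, h4⟩ := exists_split g.toWord h.toWord
  refine ⟨p, u, v, h1, h2, h3, ?_⟩
  have hg : g = mk p * mk u := by rw [mul_mk, ← h1, mk_toWord]
  have hh : h = mk p * mk v := by rw [mul_mk, ← h2, mk_toWord]
  have hgu : IsReduced u := IsReduced_right (h1 ▸ isReduced_toWord)
  have hhv : IsReduced v := IsReduced_right (h2 ▸ isReduced_toWord)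
  have hgh : g⁻¹ * h = mk (invRev u ++ v) := by
    rw [hg, hh, ← mul_mk, ← inv_mk]; group
  rw [hgh, toWord_mk]
  apply IsReduced.reduce_eq
  apply isReduced_append (IsReduced_invRev hgu) hhv
  intro a ha b hb hab
  rw [getLast?_invRev] at ha
  rw [Option.mem_def, Option.map_eq_some_iff] at ha
  obtain ⟨c, hc, rfl⟩ := ha
  have := h4 c hc b hb
  dsimp only at hab ⊢
  by_contra hcon
  apply this
  apply Prod.ext hab
  cases h5 : c.2 <;> cases h6 : b.2 <;> simp_all

/-- Weighted norm on the free group. -/
def wn (w : α → ℝ) (g : FreeGroup α) : ℝ := wt w g.toWord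

/-- Weighted Gromov product at the identity. -/
def gp (w : α → ℝ) (g h : FreeGroup α) : ℝ := wt w (lcp g.toWord h.toWord)

lemma wn_one (w : α → ℝ) : wn w (1 : FreeGroup α) = 0 := by simp [wn, wt]

lemma wn_inv (w : α → ℝ) (g : FreeGroup α) : wn w g⁻¹ = wn w g := by
  rw [wn, toWord_inv, wt_invRev, wn]

lemma gp_comm (w : α → ℝ) (g h : FreeGroup α) : gp w g h = gp w h g := by
  rw [gp, lcp_comm, gp]

lemma wn_inv_mul (w : α → ℝ) (g h : FreeGroup α) :
    wn w (g⁻¹ * h) = wn w g + wn w h - 2 * gp w g h := by
  obtain ⟨p, u, v, h1, h2, h3, h4⟩ := toWord_inv_mul g h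
  rw [wn, wn, wn, gp, h3, h4, h1, h2, wt_append, wt_append, wt_append, wt_invRev]
  ring

variable {w : α → ℝ} (hw : ∀ a, 0 < w a)

include hw

lemma wn_nonneg (g : FreeGroup α) : 0 ≤ wn w g := wt_nonneg hw _

lemma wn_eq_zero {g : FreeGroup α} (h : wn w g = 0) : g = 1 := by
  rw [← toWord_eq_nil_iff]
  by_contra hcon
  exact absurd h (wt_pos hw hcon).ne'

lemma gp_ultra (g h k : FreeGroup α) : min (gp w g h) (gp w h k) ≤ gp w g k := by
  rcases lcp_ultra g.toWord h.toWord k.toWord with h1 | h1
  · exact (min_le_left _ _).trans (wt_le_of_prefix hw h1)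
  · exact (min_le_right _ _).trans (wt_le_of_prefix hw h1)

/-- Four point condition, in terms of Gromov products. -/
lemma gp_four (x y z t : FreeGroup α) :
    min (gp w x z + gp w y t) (gp w x t + gp w y z) ≤ gp w x y + gp w z t := by
  have u1 := gp_ultra hw x z y
  have u2 := gp_ultra hw x t y
  have u3 := gp_ultra hw z x t
  have u4 := gp_ultra hw z y t
  have c1 := gp_comm w z y
  have c2 := gp_comm w t y
  have c3 := gp_comm w z x
  rw [c1] at u1
  rw [c2] at u2
  rw [c3] at u3
  rw [c1] at u4
  rcases le_total (gp w x z) (gp w x t) with h1 | h1 <;>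
  rcases le_total (gp w y t) (gp w y z) with h2 | h2 <;>
  rcases le_total (gp w x z) (gp w y z) with h3 | h3 <;>
  rcases le_total (gp w x t) (gp w y t) with h4 | h4 <;>
  simp only [min_def] at u1 u2 u3 u4 ⊢ <;> split_ifs at u1 u2 u3 u4 ⊢ <;> linarith

/-- Four point condition for the word metric. -/
lemma wn_four (x y z t : FreeGroup α) :
    wn w (x⁻¹ * y) + wn w (z⁻¹ * t) ≤
      max (wn w (x⁻¹ * z) + wn w (y⁻¹ * t)) (wn w (x⁻¹ * t) + wn w (y⁻¹ * z)) := by
  have h := gp_four hw x y z t
  rw [wn_inv_mul, wn_inv_mul, wn_inv_mul, wn_inv_mul, wn_inv_mul, wn_inv_mul]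
  rcases le_total (gp w x z + gp w y t) (gp w x t + gp w y z) with h1 | h1
  · rw [min_eq_left h1] at h
    refine le_trans ?_ (le_max_left _ _)
    linarith
  · rw [min_eq_right h1] at h
    refine le_trans ?_ (le_max_right _ _)
    linarith

end group

end Pool.Agent.Helper32.Outer
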