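import Mathlib
import Pool.Agent.Helper32.Outer.Words
import Pool.Agent.Helper32.Outer.Trans

namespace Pool.Agent.Helper32.Outer

open FreeGroup

section run

variable (src tgt : Fin 3 → Bool)

/-- Reading one letter in a labelled graph. -/
def step (q : Bool) (x : Fin 3 × Bool) : Option Bool :=
  if x.2 then (if q = src x.1 then some (tgt x.1) else none)
  else (if q = tgt x.1 then some (src x.1) else none)

/-- Reading a word in a labelled graph. -/
def run : Bool → List (Fin 3 × Bool) → Option Bool
  | q, [] => some q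
  | q, x :: L => (step src tgt q x).bind (fun q' => run q' L)

variable {src tgt}

lemma run_nil (q : Bool) : run src tgt q [] = some q := rfl

lemma run_cons (q : Bool) (x : Fin 3 × Bool) (L : List (Fin 3 × Bool)) :
    run src tgt q (x :: L) = (step src tgt q x).bind (fun q' => run src tgt q' L) := rfl

lemma run_append (q : Bool) (L M : List (Fin 3 × Bool)) :
    run src tgt q (L ++ M) = (run src tgt q L).bind (fun q' => run src tgt q' M) := by
  induction L generalizing q with
  | nil => rfl
  | cons x L ih =>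
    rw [List.cons_append, run_cons, run_cons, Option.bind_assoc]
    congr 1
    ext1 q'
    exact ih q'

lemma step_rev {q q' : Bool} {x : Fin 3 × Bool} (h : step src tgt q x = some q') :
    step src tgt q' (x.1, !x.2) = some q := by
  obtain ⟨e, b⟩ := x
  cases b
  · simp only [step, Bool.false_eq_true, if_false] at h
    split_ifs at h with h1
    rw [Option.some.injEq] at h
    simp [step, ← h, h1]
  · simp only [step, if_true] at h
    split_ifs at h with h1
    rw [Option.some.injEq] at h
    simp [step, ← h, h1]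

lemma run_append_some {q q' q'' : Bool} {L M : List (Fin 3 × Bool)}
    (h : run src tgt q L = some q') (h' : run src tgt q' M = some q'') :
    run src tgt q (L ++ M) = some q'' := by
  rw [run_append, h]; exact h'

lemma run_of_append {q q'' : Bool} {L M : List (Fin 3 × Bool)}
    (h : run src tgt q (L ++ M) = some q'') :
    ∃ q', run src tgt q L = some q' ∧ run src tgt q' M = some q'' := by
  rw [run_append] at h
  exact Option.bind_eq_some_iff.1 h

lemma run_singleton (q : Bool) (x : Fin 3 × Bool) : run src tgt q [x] = step src tgt q x := by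
  rw [run_cons]
  cases step src tgt q x <;> rfl

lemma run_invRev {q q' : Bool} {L : List (Fin 3 × Bool)} (h : run src tgt q L = some q') :
    run src tgt q' (invRev L) = some q := by
  induction L generalizing q with
  | nil =>
    rw [run_nil, Option.some.injEq] at h
    subst h; rfl
  | cons x L ih =>
    rw [run_cons, Option.bind_eq_some_iff] at h
    obtain ⟨q1, h1, h2⟩ := h
    rw [invRev_cons]
    apply run_append_some (ih h2)
    have : invRev [x] = [(x.1, !x.2)] := rfl
    rw [this, run_singleton]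
    exact step_rev h1

lemma run_redStep {q q' : Bool} {L M : List (Fin 3 × Bool)} (hs : Red.Step L M)
    (h : run src tgt q L = some q') : run src tgt q M = some q' := by
  obtain @⟨L₁, L₂, x, b⟩ := hs
  obtain ⟨q1, h1, h2⟩ := run_of_append h
  apply run_append_some h1
  rw [run_cons, Option.bind_eq_some_iff] at h2
  obtain ⟨q2, h2, h3⟩ := h2
  rw [run_cons, Option.bind_eq_some_iff] at h3
  obtain ⟨q3, h3, h4⟩ := h3
  have := step_rev h2
  rw [this, Option.some.injEq] at h3
  subst h3
  exact h4

lemma run_red {q q' : Bool} {L M : List (Fin 3 × Bool)} (hs : Red L M)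
    (h : run src tgt q L = some q') : run src tgt q M = some q' := by
  induction hs with
  | refl => exact h
  | tail _ h2 ih => exact run_redStep h2 ih

lemma run_toWord_mk {q q' : Bool} {L : List (Fin 3 × Bool)}
    (h : run src tgt q L = some q') : run src tgt q (mk L).toWord = some q' := by
  rw [toWord_mk]
  exact run_red reduce.red h

lemma run_mul {q q' q'' : Bool} {g h : FreeGroup (Fin 3)}
    (h1 : run src tgt q g.toWord = some q') (h2 : run src tgt q' h.toWord = some q'') :
    run src tgt q (g * h).toWord = some q'' := by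
  rw [toWord_mul]
  exact run_red reduce.red (run_append_some h1 h2)

lemma run_inv {q q' : Bool} {g : FreeGroup (Fin 3)}
    (h1 : run src tgt q g.toWord = some q') : run src tgt q' (g⁻¹).toWord = some q := by
  rw [toWord_inv]
  exact run_invRev h1

end run

/-- A marked metric graph with two vertices and three edges, presented through labels in a free
group. -/
structure MG where
  src : Fin 3 → Bool
  tgt : Fin 3 → Bool
  w : Fin 3 → ℝ
  hw : ∀ e, 0 < w e
  Θ : F2 →* FreeGroup (Fin 3)
  closed : ∀ g, run src tgt false (Θ g).toWord = some false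
  inj : Function.Injective Θ
  surj : ∀ k : FreeGroup (Fin 3), run src tgt false k.toWord = some false → ∃ g, Θ g = k
  rep : Bool → FreeGroup (Fin 3)
  rep_run : ∀ q, run src tgt false (rep q).toWord = some q
  edge_at : ∀ q, ∃ x : Fin 3 × Bool, ∃ q', step src tgt q x = some q'
  ax : ∀ q, ∃ g : F2, g ≠ 1 ∧ ∀ n : ℕ,
    wn w ((rep q)⁻¹ * (Θ g ^ n * rep q)) = n * wn w ((rep q)⁻¹ * (Θ g * rep q))

/-- Vertices of the universal cover. -/
structure Vg (M : MG) where
  g : FreeGroup (Fin 3)
  rd : ∃ q, run M.src M.tgt false g.toWord = some q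

namespace Vg

variable {M : MG}

@[ext] lemma ext' {a b : Vg M} (h : a.g = b.g) : a = b := by
  cases a; cases b; cases h; rfl

noncomputable instance : MetricSpace (Vg M) where
  dist a b := wn M.w (a.g⁻¹ * b.g)
  dist_self a := by
    rw [inv_mul_cancel, wn_one]
  dist_comm a b := by
    rw [← wn_inv M.w (a.g⁻¹ * b.g), mul_inv_rev, inv_inv]
  dist_triangle a b c := by
    have h := wn_four M.hw a.g c.g b.g b.g
    have e : wn M.w (c.g⁻¹ * b.g) = wn M.w (b.g⁻¹ * c.g) := by
      rw [← wn_inv M.w (c.g⁻¹ * b.g), mul_inv_rev, inv_inv]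
    rw [inv_mul_cancel, wn_one, add_zero, max_self, e] at h
    exact h
  eq_of_dist_eq_zero := by
    intro a b h
    have h' : wn M.w (a.g⁻¹ * b.g) = 0 := h
    have := wn_eq_zero M.hw h'
    apply ext'
    rwa [inv_mul_eq_one] at this

lemma dist_def (a b : Vg M) : dist a b = wn M.w (a.g⁻¹ * b.g) := rfl

instance : ZeroHyp (Vg M) := ⟨fun x y z w => wn_four M.hw x.g y.g z.g w.g⟩

instance : MulAction F2 (Vg M) where
  smul h a := ⟨M.Θ h * a.g, by
    obtain ⟨q, hq⟩ := a.rd
    exact ⟨q, run_mul (M.closed h) hq⟩⟩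
  one_smul a := by
    apply ext'
    change M.Θ 1 * a.g = a.g
    rw [_root_.map_one, one_mul]
  mul_smul h k a := by
    apply ext'
    change M.Θ (h * k) * a.g = M.Θ h * (M.Θ k * a.g)
    rw [_root_.map_mul, mul_assoc]

lemma smul_g (h : F2) (a : Vg M) : (h • a).g = M.Θ h * a.g := rfl

instance : IsIsometricSMul F2 (Vg M) := ⟨fun h => Isometry.of_dist_eq (fun a b => by
  rw [dist_def, dist_def, smul_g, smul_g]
  congr 1
  group)⟩

end Vg

variable {M : MG}

lemma hull_iso (g : F2) (x y : Hull (Vg M)) : dist (g • x) (g • y) = dist x y := dist_smul g x y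

/-- The vertex representing the state `q`. -/
def repV (M : MG) (q : Bool) : Vg M := ⟨M.rep q, q, M.rep_run q⟩

/-- Segments in terms of prefixes. -/
lemma prefix_iff (M : MG) (k h : FreeGroup (Fin 3)) :
    wn M.w k + wn M.w (k⁻¹ * h) = wn M.w h ↔ k.toWord <+: h.toWord := by
  rw [wn_inv_mul]
  constructor
  · intro h1
    have h2 : wn M.w k ≤ gp M.w k h := by linarith
    have h3 := eq_of_prefix_of_wt_le M.hw (lcp_prefix_left k.toWord h.toWord) h2
    rw [← h3]
    exact lcp_prefix_right _ _
  · intro h1
    have h2 : lcp k.toWord h.toWord = k.toWord :=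
      eq_of_prefix_of_wt_le M.hw (lcp_prefix_left _ _)
        (wt_le_of_prefix M.hw (prefix_lcp (List.prefix_refl _) h1))
    rw [gp, h2, wn]
    ring

lemma emb_mem_seg (a b c : Vg M) : (emb c : Hull (Vg M)) ∈ seg (emb a) (emb b) ↔
    (a.g⁻¹ * c.g).toWord <+: (a.g⁻¹ * b.g).toWord := by
  change dist _ _ + dist _ _ = dist _ _ ↔ _
  rw [dist_emb, dist_emb, dist_emb, Vg.dist_def, Vg.dist_def, Vg.dist_def, ← prefix_iff M]
  have : (a.g⁻¹ * c.g)⁻¹ * (a.g⁻¹ * b.g) = c.g⁻¹ * b.g := by group
  rw [this]

lemma emb_injective : Function.Injective (emb : Vg M → Hull (Vg M)) := by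
  intro a b h
  have : dist a b = 0 := by rw [← dist_emb, h, dist_self]
  exact dist_eq_zero.1 this

/-- The vertex set is convex. -/
lemma mul_mk_readable (a b : Vg M) {p : List (Fin 3 × Bool)}
    (hp : p <+: (a.g⁻¹ * b.g).toWord) : ∃ q, run M.src M.tgt false (a.g * mk p).toWord = some q := by
  obtain ⟨r, u, v, h1, h2, h3, h4⟩ := toWord_inv_mul a.g b.g
  rw [h4] at hp
  obtain ⟨qa, hqa⟩ := a.rd
  obtain ⟨qb, hqb⟩ := b.rd
  rw [h1] at hqa
  rw [h2] at hqb
  obtain ⟨q1, hr, hu⟩ := run_of_append hqa
  obtain ⟨q2, hr', hv⟩ := run_of_append hqb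
  rw [hr, Option.some.injEq] at hr'
  subst hr'
  have hw : run M.src M.tgt qa (invRev u ++ v) = some qb := run_append_some (run_invRev hu) hv
  obtain ⟨t, ht⟩ := hp
  rw [← ht] at hw
  obtain ⟨q3, h5, h6⟩ := run_of_append hw
  refine ⟨q3, ?_⟩
  have h7 := run_toWord_mk h5
  apply run_mul _ h7
  rw [h1]
  exact run_append_some hr hu

lemma prefix_singleton {β : Type} {l : List β} {x : β} (h : l <+: [x]) : l = [] ∨ l = [x] := by
  obtain ⟨t, ht⟩ := h
  cases l with
  | nil => exact Or.inl rfl
  | cons a l =>
    rw [List.cons_append, List.cons.injEq] at ht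
    obtain ⟨rfl, h2⟩ := ht
    rw [List.append_eq_nil_iff] at h2
    rw [h2.1]
    exact Or.inr rfl

/-- Characterisation of edges. -/
lemma isEdge_iff (a b : Vg M) : IsEdge (Set.range (emb : Vg M → Hull (Vg M))) (emb a) (emb b) ↔
    ∃ x, (a.g⁻¹ * b.g).toWord = [x] := by
  constructor
  · rintro ⟨-, -, hne, h⟩
    cases hW : (a.g⁻¹ * b.g).toWord with
    | nil =>
      exfalso
      apply hne
      rw [toWord_eq_nil_iff, inv_mul_eq_one] at hW
      exact congrArg emb (Vg.ext' hW)
    | cons x L =>
      have hpre : [x] <+: (a.g⁻¹ * b.g).toWord := by rw [hW]; exact ⟨L, rfl⟩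
      let c : Vg M := ⟨a.g * mk [x], mul_mk_readable a b hpre⟩
      have hc : (a.g⁻¹ * c.g).toWord = [x] := by
        change (a.g⁻¹ * (a.g * mk [x])).toWord = [x]
        rw [inv_mul_cancel_left, toWord_mk]; rfl
      have h1 := h (emb c) ⟨c, rfl⟩ ((emb_mem_seg a b c).2 (by rw [hc]; exact hpre))
      rcases h1 with h1 | h1
      · have h2 := emb_injective h1
        rw [h2, inv_mul_cancel, toWord_one] at hc
        exact absurd hc (by simp)
      · have h2 := emb_injective h1
        rw [h2, hW] at hc
        exact ⟨x, hc⟩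
  · rintro ⟨x, hx⟩
    refine ⟨⟨a, rfl⟩, ⟨b, rfl⟩, ?_, ?_⟩
    · intro h
      rw [emb_injective h, inv_mul_cancel, toWord_one] at hx
      exact absurd hx (by simp)
    · rintro _ ⟨c, rfl⟩ hc
      rw [emb_mem_seg, hx] at hc
      rcases prefix_singleton hc with h | h
      · left
        rw [toWord_eq_nil_iff, inv_mul_eq_one] at h
        exact congrArg emb (Vg.ext' h.symm)
      · right
        have : a.g⁻¹ * c.g = a.g⁻¹ * b.g := toWord_injective (by rw [h, hx])
        exact congrArg emb (Vg.ext' (mul_left_cancel this))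

lemma seg_finite (a b : Vg M) :
    {z | z ∈ Set.range (emb : Vg M → Hull (Vg M)) ∧ z ∈ seg (emb a) (emb b)}.Finite := by
  have h1 : {p | p <+: (a.g⁻¹ * b.g).toWord}.Finite := by
    have : {p | p <+: (a.g⁻¹ * b.g).toWord} = {p | p ∈ (a.g⁻¹ * b.g).toWord.inits} := by
      ext p; simp
    rw [this]
    exact List.finite_toSet _
  have h2 : {c : Vg M | (a.g⁻¹ * c.g).toWord <+: (a.g⁻¹ * b.g).toWord}.Finite := by
    apply Set.Finite.preimage (f := fun c : Vg M => (a.g⁻¹ * c.g).toWord) _ h1
    intro c _ d _ hcd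
    exact Vg.ext' (mul_left_cancel (toWord_injective hcd))
  apply (h2.image emb).subset
  rintro _ ⟨⟨c, rfl⟩, hc⟩
  exact ⟨c, (emb_mem_seg a b c).1 hc, rfl⟩

lemma mem_seg_left_or_right {X : Type} [MetricSpace X]
    (h4 : ∀ x y z w : X, dist x y + dist z w ≤ max (dist x z + dist y w) (dist x w + dist y z))
    {a b c z : X} (hc : c ∈ seg a b) (hz : z ∈ seg a b) : z ∈ seg a c ∨ z ∈ seg c b := by
  have h := dist_of_mem_seg h4 hz hc
  have hc' : dist a c + dist c b = dist a b := hc
  have hz' : dist a z + dist z b = dist a b := hz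
  rcases le_total (dist a z) (dist a c) with h1 | h1
  · left
    rw [abs_of_nonpos (by linarith)] at h
    change dist a z + dist z c = dist a c
    linarith
  · right
    rw [abs_of_nonneg (by linarith)] at h
    change dist c z + dist z b = dist c b
    rw [dist_comm c z]
    linarith

lemma cover_aux (L : List (Fin 3 × Bool)) : ∀ (a b : Vg M), (a.g⁻¹ * b.g).toWord = L →
    ∀ z ∈ seg (emb a : Hull (Vg M)) (emb b), ∃ u v,
      IsEdge (Set.range (emb : Vg M → Hull (Vg M))) u v ∧ z ∈ seg u v := by
  induction L with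
  | nil =>
    intro a b hab z hz
    rw [toWord_eq_nil_iff, inv_mul_eq_one] at hab
    have hab' : a = b := Vg.ext' hab
    subst hab'
    have hz' : dist (emb a) z + dist z (emb a) = dist (emb a : Hull (Vg M)) (emb a) := hz
    rw [dist_self, dist_comm z] at hz'
    have h0 : dist (emb a) z = 0 := by linarith [dist_nonneg (x := (emb a : Hull (Vg M))) (y := z)]
    have hza := dist_eq_zero.1 h0
    obtain ⟨q, hq⟩ := a.rd
    obtain ⟨x, q', hx⟩ := M.edge_at q
    have hr : run M.src M.tgt false (a.g * mk [x]).toWord = some q' := by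
      apply run_mul hq
      rw [toWord_mk]
      change run M.src M.tgt q [x] = _
      rw [run_singleton, hx]
    refine ⟨emb a, emb ⟨a.g * mk [x], q', hr⟩, (isEdge_iff _ _).2 ⟨x, ?_⟩, ?_⟩
    · change (a.g⁻¹ * (a.g * mk [x])).toWord = [x]
      rw [inv_mul_cancel_left, toWord_mk]; rfl
    · rw [← hza]
      change dist _ _ + dist _ _ = dist _ _
      rw [dist_self, zero_add]
  | cons x L ih =>
    intro a b hab z hz
    have hpre : [x] <+: (a.g⁻¹ * b.g).toWord := by rw [hab]; exact ⟨L, rfl⟩
    let c : Vg M := ⟨a.g * mk [x], mul_mk_readable a b hpre⟩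
    have hc : (a.g⁻¹ * c.g).toWord = [x] := by
      change (a.g⁻¹ * (a.g * mk [x])).toWord = [x]
      rw [inv_mul_cancel_left, toWord_mk]; rfl
    have hcs : (emb c : Hull (Vg M)) ∈ seg (emb a) (emb b) :=
      (emb_mem_seg a b c).2 (by rw [hc]; exact hpre)
    rcases mem_seg_left_or_right hull_four hcs hz with h | h
    · exact ⟨emb a, emb c, (isEdge_iff _ _).2 ⟨x, hc⟩, h⟩
    · apply ih c b _ z h
      have h1 : IsReduced (x :: L) := hab ▸ isReduced_toWord
      have h2 : a.g⁻¹ * b.g = mk (x :: L) := by rw [← hab, mk_toWord]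
      have h3 : c.g⁻¹ * b.g = mk L := by
        have h4 : c.g⁻¹ * b.g = (mk [x])⁻¹ * (a.g⁻¹ * b.g) := by
          change (a.g * mk [x])⁻¹ * b.g = _
          group
        have h5 : mk (x :: L) = mk [x] * mk L := by rw [mul_mk]; rfl
        rw [h4, h2, h5, inv_mul_cancel_left]
      rw [h3, toWord_mk]
      apply IsReduced.reduce_eq
      exact IsReduced_right (u := [x]) h1

end Pool.Agent.Helper32.Outer
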