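import Mathlib
import Pool.Agent.Helper32.Outer.Graph

namespace Pool.Agent.Helper32.Outer

open FreeGroup

section letters

set_option linter.unusedSectionVars false

variable {α : Type*} [DecidableEq α]

/-- The inverse letter. -/
def bar (x : α × Bool) : α × Bool := (x.1, !x.2)

lemma mk_bar (x : α × Bool) : (mk [bar x] : FreeGroup α) = (mk [x])⁻¹ := by
  rw [inv_mk]; rfl

lemma toWord_mul_letter (g : FreeGroup α) (y : α × Bool) :
    (g * mk [y]).toWord = g.toWord ++ [y] ∨ g.toWord = (g * mk [y]).toWord ++ [bar y] := by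
  by_cases h : g.toWord.getLast? = some (bar y)
  · right
    obtain ⟨L, hL⟩ := List.getLast?_eq_some_iff.1 h
    have hred : FreeGroup.IsReduced (L ++ [bar y]) := hL ▸ isReduced_toWord
    have h1 : g * mk [y] = mk L := by
      have h2 : g = mk L * mk [bar y] := by rw [mul_mk, ← hL, mk_toWord]
      rw [h2, mk_bar, inv_mul_cancel_right]
    rw [h1, toWord_mk, (IsReduced_left hred).reduce_eq, hL]
  · left
    rw [toWord_mul, toWord_mk]
    change reduce (g.toWord ++ [y]) = _
    apply IsReduced.reduce_eq
    apply isReduced_append isReduced_toWord IsReduced.singleton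
    intro a ha b hb hab
    simp only [List.head?_cons, Option.mem_def, Option.some.injEq] at hb
    subst hb
    by_contra hcon
    apply h
    rw [Option.mem_def] at ha
    rw [ha, Option.some.injEq]
    refine Prod.ext (show a.1 = (bar y).1 from hab) ?_
    change a.2 = !y.2
    cases h5 : a.2 <;> cases h6 : y.2 <;> simp_all

lemma toWord_letter_mul (x : α × Bool) (g : FreeGroup α) :
    ((mk [x])⁻¹ * g).toWord = bar x :: g.toWord ∨ g.toWord = x :: ((mk [x])⁻¹ * g).toWord := by
  by_cases h : g.toWord.head? = some x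
  · right
    obtain ⟨L, hL⟩ := List.head?_eq_some_iff.1 h
    have hred : FreeGroup.IsReduced (x :: L) := hL ▸ isReduced_toWord
    have h1 : (mk [x])⁻¹ * g = mk L := by
      have h2 : g = mk [x] * mk L := by
        rw [mul_mk, List.singleton_append, ← hL, mk_toWord]
      rw [h2, inv_mul_cancel_left]
    rw [h1, toWord_mk, (IsReduced_right (u := [x]) hred).reduce_eq, hL]
  · left
    rw [← mk_bar, toWord_mul, toWord_mk]
    change reduce ([bar x] ++ g.toWord) = [bar x] ++ g.toWord
    apply IsReduced.reduce_eq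
    apply isReduced_append IsReduced.singleton isReduced_toWord
    intro a ha b hb hab
    simp only [List.getLast?_singleton, Option.mem_def, Option.some.injEq] at ha
    subst ha
    by_contra hcon
    apply h
    rw [Option.mem_def] at hb
    rw [hb, Option.some.injEq]
    refine Prod.ext (show b.1 = x.1 from hab.symm) ?_
    change ¬ (!x.2) = b.2 at hcon
    cases h5 : b.2 <;> cases h6 : x.2 <;> simp_all

variable {w : α → ℝ} (hw : ∀ a, 0 < w a)

include hw

/-- Two different edges have endpoints that are far apart. -/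
lemma far (k : FreeGroup α) (x y : α × Bool) :
    w x.1 + w y.1 ≤ wn w k ∨ w x.1 + w y.1 ≤ wn w (k * mk [y]) ∨
    w x.1 + w y.1 ≤ wn w ((mk [x])⁻¹ * k) ∨ w x.1 + w y.1 ≤ wn w ((mk [x])⁻¹ * k * mk [y]) ∨
    (k = 1 ∧ y = x) ∨ (k = mk [x] ∧ y = bar x) := by
  have hbar : ∀ z : α × Bool, (bar z).1 = z.1 := fun _ => rfl
  have hbb : ∀ z : α × Bool, bar (bar z) = z := by
    intro z; ext <;> simp [bar]
  rcases toWord_letter_mul x k with h1 | h1
  · rcases toWord_mul_letter ((mk [x])⁻¹ * k) y with h2 | h2
    · right; right; right; left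
      rw [wn, h2, wt_append, h1, wt_cons, wt_cons, wt_nil, hbar]
      linarith [wt_nonneg hw k.toWord]
    · rw [h1] at h2
      rcases List.eq_nil_or_concat k.toWord with h3 | ⟨L, z, h3⟩
      · rw [h3] at h2
        have h4 : [bar x] = [] ++ [bar x] := rfl
        rw [h4] at h2
        have h5 := List.append_inj_right' h2 rfl
        rw [List.cons.injEq] at h5
        right; right; right; right; left
        rw [toWord_eq_nil_iff] at h3
        refine ⟨h3, ?_⟩
        rw [← hbb y, ← h5.1, hbb]
      · rw [h3, List.concat_eq_append, ← List.cons_append] at h2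
        have h5 := List.append_inj_right' h2 rfl
        rw [List.cons.injEq] at h5
        right; right; left
        rw [wn, h1, h3, List.concat_eq_append, wt_cons, wt_append, wt_cons, wt_nil, h5.1, hbar,
          hbar]
        linarith [wt_nonneg hw L]
  · rcases toWord_mul_letter k y with h2 | h2
    · right; left
      rw [wn, h2, wt_append, h1, wt_cons, wt_cons, wt_nil]
      linarith [wt_nonneg hw ((mk [x])⁻¹ * k).toWord]
    · rcases List.eq_nil_or_concat ((mk [x])⁻¹ * k).toWord with h3 | ⟨L, z, h3⟩
      · rw [h1, h3] at h2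
        have h4 : [x] = [] ++ [x] := rfl
        rw [h4] at h2
        have h5 := List.append_inj_right' h2 rfl
        rw [List.cons.injEq] at h5
        right; right; right; right; right
        rw [toWord_eq_nil_iff, inv_mul_eq_one] at h3
        refine ⟨h3.symm, ?_⟩
        rw [h5.1, hbb]
      · left
        have h6 := h2
        rw [h1, h3, List.concat_eq_append, ← List.cons_append] at h6
        have h5 := List.append_inj_right' h6 rfl
        rw [List.cons.injEq] at h5
        rw [wn, h1, h3, List.concat_eq_append, wt_cons, wt_append, wt_cons, wt_nil, h5.1, hbar]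
        linarith [wt_nonneg hw L]

/-- Norms of powers of a nontrivial element are unbounded. -/
lemma unbounded [Finite α] {k : FreeGroup α} (hk : k ≠ 1) (R : ℝ) : ∃ n : ℕ, R < wn w (k ^ n) := by
  classical
  by_contra hcon
  push Not at hcon
  cases isEmpty_or_nonempty α with
  | inl h => exact hk (Subsingleton.elim _ _)
  | inr h =>
    obtain ⟨a0, ha0⟩ := Finite.exists_min w
    have hlen : ∀ L : List (α × Bool), w a0 * L.length ≤ wt w L := by
      intro L
      induction L with
      | nil => simp [wt_nil]
      | cons x L ih =>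
        rw [wt_cons, List.length_cons]
        push_cast
        linarith [ha0 x.1]
    obtain ⟨N, hN⟩ := exists_nat_gt (R / w a0)
    rw [div_lt_iff₀ (hw a0)] at hN
    have hfin : {L : List (α × Bool) | L.length ≤ N}.Finite := List.finite_length_le _ N
    have hfin2 : {g : FreeGroup α | g.toWord.length ≤ N}.Finite :=
      Set.Finite.preimage toWord_injective.injOn hfin
    have hsub : Set.range (fun n : ℕ => k ^ n) ⊆ {g : FreeGroup α | g.toWord.length ≤ N} := by
      rintro _ ⟨n, rfl⟩
      have h1 := hcon n
      have h2 := hlen (k ^ n).toWord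
      have h3 : w a0 * (k ^ n).toWord.length < w a0 * N := by
        rw [wn] at h1; linarith
      have h4 := lt_of_mul_lt_mul_left h3 (hw a0).le
      exact_mod_cast h4.le
    have hinf : (Set.range (fun n : ℕ => k ^ n)).Infinite := by
      apply Set.infinite_range_of_injective
      rw [injective_pow_iff_not_isOfFinOrder]
      exact not_isOfFinOrder_of_isMulTorsionFree hk
    exact hinf (hfin2.subset hsub)

end letters

variable {M : MG}

lemma vertexSet_inter (u v u' v' z : Hull (Vg M))
    (h : IsEdge (Set.range (emb : Vg M → Hull (Vg M))) u v)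
    (h' : IsEdge (Set.range (emb : Vg M → Hull (Vg M))) u' v') (hz : z ∈ seg u v)
    (hz' : z ∈ seg u' v') (hzV : z ∉ Set.range (emb : Vg M → Hull (Vg M))) :
    (u' = u ∧ v' = v) ∨ (u' = v ∧ v' = u) := by
  obtain ⟨a, rfl⟩ := h.1
  obtain ⟨b, rfl⟩ := h.2.1
  obtain ⟨c, rfl⟩ := h'.1
  obtain ⟨d, rfl⟩ := h'.2.1
  obtain ⟨x, hx⟩ := (isEdge_iff a b).1 h
  obtain ⟨y, hy⟩ := (isEdge_iff c d).1 h'
  have hb : b.g = a.g * mk [x] := by rw [← hx, mk_toWord, mul_inv_cancel_left]
  have hd : d.g = c.g * mk [y] := by rw [← hy, mk_toWord, mul_inv_cancel_left]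
  have pos : ∀ e : Vg M, 0 < dist (emb e) z := by
    intro e
    apply dist_pos.2
    rintro rfl
    exact hzV ⟨e, rfl⟩
  have pa := pos a
  have pb := pos b
  have pc := pos c
  have pd := pos d
  have eab : dist a b = M.w x.1 := by
    rw [Vg.dist_def, wn, hx, wt_cons, wt_nil, add_zero]
  have ecd : dist c d = M.w y.1 := by
    rw [Vg.dist_def, wn, hy, wt_cons, wt_nil, add_zero]
  have hz1 : dist (emb a) z + dist z (emb b) = dist (emb a : Hull (Vg M)) (emb b) := hz
  have hz2 : dist (emb c) z + dist z (emb d) = dist (emb c : Hull (Vg M)) (emb d) := hz'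
  rw [dist_emb, eab, dist_comm z] at hz1
  rw [dist_emb, ecd, dist_comm z] at hz2
  have tri : ∀ e f : Vg M, dist e f ≤ dist (emb e) z + dist (emb f) z := by
    intro e f
    rw [← dist_emb, dist_comm (emb f) z]
    exact dist_triangle _ _ _
  have t1 := tri a c
  have t2 := tri a d
  have t3 := tri b c
  have t4 := tri b d
  have e1 : dist a c = wn M.w (a.g⁻¹ * c.g) := rfl
  have e2 : dist a d = wn M.w (a.g⁻¹ * c.g * mk [y]) := by
    rw [Vg.dist_def, hd, mul_assoc]
  have e3 : dist b c = wn M.w ((mk [x])⁻¹ * (a.g⁻¹ * c.g)) := by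
    rw [Vg.dist_def, hb]; congr 1; group
  have e4 : dist b d = wn M.w ((mk [x])⁻¹ * (a.g⁻¹ * c.g) * mk [y]) := by
    rw [Vg.dist_def, hb, hd]; congr 1; group
  rcases far M.hw (a.g⁻¹ * c.g) x y with h1 | h1 | h1 | h1 | ⟨h1, h2⟩ | ⟨h1, h2⟩
  · exfalso; rw [← e1] at h1; linarith
  · exfalso; rw [← e2] at h1; linarith
  · exfalso; rw [← e3] at h1; linarith
  · exfalso; rw [← e4] at h1; linarith
  · left
    rw [inv_mul_eq_one] at h1
    have hca : c = a := Vg.ext' h1.symm
    subst hca
    refine ⟨rfl, ?_⟩
    rw [show d = b from Vg.ext' (by rw [hb, hd, h2])]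
  · right
    have hcb : c = b := Vg.ext' (by rw [hb, ← h1, mul_inv_cancel_left])
    subst hcb
    refine ⟨rfl, ?_⟩
    rw [show d = a from Vg.ext' (by rw [hd, hb, h2, mk_bar, mul_inv_cancel_right])]

lemma isVertexSet (M : MG) : IsVertexSet (Set.range (emb : Vg M → Hull (Vg M))) where
  cover z := by
    obtain ⟨a, b, h⟩ := exists_mem_seg z
    exact cover_aux _ a b rfl z h
  inter := vertexSet_inter
  finite := by
    rintro _ ⟨a, rfl⟩ _ ⟨b, rfl⟩
    exact seg_finite a b

lemma hull_free (g : F2) (z : Hull (Vg M)) (h : g • z = z) : g = 1 := by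
  by_contra hg
  have hk : M.Θ g ≠ 1 := fun h1 => hg (M.inj (by rw [h1, _root_.map_one]))
  let o : Vg M := ⟨1, false, by rw [toWord_one]; rfl⟩
  obtain ⟨n, hn⟩ := unbounded M.hw hk (2 * dist (emb o) z)
  have hz : g ^ n • z = z := by
    induction n with
    | zero => rw [pow_zero, one_smul]
    | succ n ih =>
      clear ih hn
      induction n with
      | zero => rw [zero_add, pow_one, h]
      | succ n ih => rw [pow_succ, mul_smul, h, ih]
  have h1 := dist_triangle (emb o) z (g ^ n • (emb o : Hull (Vg M)))
  have h2 : dist z (g ^ n • (emb o : Hull (Vg M))) = dist (emb o) z := by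
    conv_lhs => rw [← hz]
    rw [hull_iso, dist_comm]
  have h3 : dist (emb o) (g ^ n • (emb o : Hull (Vg M))) = wn M.w (M.Θ g ^ n) := by
    rw [smul_emb, dist_emb, Vg.dist_def, Vg.smul_g, _root_.map_pow]
    congr 1
    change (1 : FreeGroup (Fin 3))⁻¹ * (M.Θ g ^ n * 1) = _
    group
  linarith

lemma dist_rep (g : F2) (q : Bool) (n : ℕ) :
    dist (emb (repV M q)) (g ^ n • (emb (repV M q) : Hull (Vg M))) =
      wn M.w ((M.rep q)⁻¹ * (M.Θ g ^ n * M.rep q)) := by
  rw [smul_emb, dist_emb, Vg.dist_def, Vg.smul_g, _root_.map_pow]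
  rfl

lemma exists_translate (a : Vg M) (q : Bool) (hq : run M.src M.tgt false a.g.toWord = some q) :
    ∃ g : F2, g • repV M q = a := by
  obtain ⟨g, hg⟩ := M.surj (a.g * (M.rep q)⁻¹) (run_mul hq (run_inv (M.rep_run q)))
  refine ⟨g, Vg.ext' ?_⟩
  rw [Vg.smul_g, hg]
  change a.g * (M.rep q)⁻¹ * M.rep q = a.g
  group

lemma hull_minimal (Y : Set (Hull (Vg M))) (hne : Y.Nonempty)
    (hinv : ∀ (g : F2), ∀ y ∈ Y, g • y ∈ Y) (hconv : ∀ y ∈ Y, ∀ z ∈ Y, seg y z ⊆ Y) :
    Y = Set.univ := by
  have hrep : ∀ q, (emb (repV M q) : Hull (Vg M)) ∈ Y := by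
    intro q
    obtain ⟨g, hg1, hg⟩ := M.ax q
    have h1 : dist (emb (repV M q)) (g • (emb (repV M q) : Hull (Vg M))) =
        wn M.w ((M.rep q)⁻¹ * (M.Θ g * M.rep q)) := by
      have := dist_rep g q 1 (M := M)
      simpa using this
    apply axis_mem hull_iso hull_four Y hne hinv hconv g
    · apply dist_pos.2
      intro h
      exact hg1 (hull_free g _ h.symm)
    · intro n
      rw [dist_rep, hg n, h1]
  rw [Set.eq_univ_iff_forall]
  intro z
  obtain ⟨a, b, h⟩ := exists_mem_seg z
  have hmem : ∀ a : Vg M, (emb a : Hull (Vg M)) ∈ Y := by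
    intro a
    obtain ⟨q, hq⟩ := a.rd
    obtain ⟨g, hg⟩ := exists_translate a q hq
    rw [← hg, ← smul_emb]
    exact hinv g _ (hrep q)
  exact hconv _ (hmem a) _ (hmem b) h

/-- The universal cover of a marked metric graph. -/
noncomputable def cover (M : MG) : TreeAction where
  X := Hull (Vg M)
  nonempty := ⟨emb (repV M false)⟩
  isometric := hull_iso
  tree := hull_isMetricTree
  V := Set.range emb
  vertexSet := isVertexSet M
  invariant := by
    rintro g _ ⟨a, rfl⟩
    exact ⟨g • a, (smul_emb g a).symm⟩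
  free := hull_free
  minimal := hull_minimal

/-- The edge `e`, as a vertex pair. -/
lemma tgt_readable (M : MG) (e : Fin 3) :
    ∃ q, run M.src M.tgt false (M.rep (M.src e) * mk [(e, true)]).toWord = some q := by
  refine ⟨M.tgt e, run_mul (M.rep_run _) ?_⟩
  rw [toWord_mk]
  change run M.src M.tgt (M.src e) [(e, true)] = _
  rw [run_singleton]
  simp [step]

/-- The end of the edge `e`. -/
def endV (M : MG) (e : Fin 3) : Vg M := ⟨M.rep (M.src e) * mk [(e, true)], tgt_readable M e⟩

lemma label_end (M : MG) (e : Fin 3) :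
    ((repV M (M.src e)).g⁻¹ * (endV M e).g).toWord = [(e, true)] := by
  change ((M.rep (M.src e))⁻¹ * (M.rep (M.src e) * mk [(e, true)])).toWord = _
  rw [inv_mul_cancel_left, toWord_mk]; rfl

/-- Labels are invariant. -/
lemma label_smul (g : F2) (a b : Vg M) : (g • a).g⁻¹ * (g • b).g = a.g⁻¹ * b.g := by
  rw [Vg.smul_g, Vg.smul_g]; group

lemma covolume_cover (M : MG) : HasCovolume (cover M) (∑ e, M.w e) := by
  classical
  let f : Fin 3 → Hull (Vg M) × Hull (Vg M) := fun e => (emb (repV M (M.src e)), emb (endV M e))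
  have hf : Function.Injective f := by
    intro e e' h
    have h1 : emb (repV M (M.src e)) = emb (repV M (M.src e')) := congrArg Prod.fst h
    have h2 : emb (endV M e) = emb (endV M e') := congrArg Prod.snd h
    have h3 := label_end M e
    rw [emb_injective h1, emb_injective h2, label_end] at h3
    simpa using h3.symm
  refine ⟨Finset.univ.image f, ?_, ?_, ?_⟩
  · intro p hp
    obtain ⟨e, -, rfl⟩ := Finset.mem_image.1 hp
    exact (isEdge_iff _ _).2 ⟨_, label_end M e⟩
  · intro u v huv
    obtain ⟨a, rfl⟩ := huv.1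
    obtain ⟨b, rfl⟩ := huv.2.1
    obtain ⟨x, hx⟩ := (isEdge_iff a b).1 huv
    have hb : b.g = a.g * mk [x] := by rw [← hx, mk_toWord, mul_inv_cancel_left]
    -- uniqueness of the label
    have huniq : ∀ e : Fin 3, (∃ g : F2,
        (g • (f e).1 = emb a ∧ g • (f e).2 = emb b) ∨ (g • (f e).1 = emb b ∧ g • (f e).2 = emb a)) →
        e = x.1 := by
      rintro e ⟨g, ⟨h1, h2⟩ | ⟨h1, h2⟩⟩
      · have h1' : g • repV M (M.src e) = a := emb_injective (by rw [← smul_emb]; exact h1)
        have h2' : g • endV M e = b := emb_injective (by rw [← smul_emb]; exact h2)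
        have h3 := label_end M e
        rw [← label_smul g, h1', h2', hx] at h3
        simpa using (congrArg Prod.fst (List.cons.inj h3).1).symm
      · have h1' : g • repV M (M.src e) = b := emb_injective (by rw [← smul_emb]; exact h1)
        have h2' : g • endV M e = a := emb_injective (by rw [← smul_emb]; exact h2)
        have h3 := label_end M e
        rw [← label_smul g, h1', h2'] at h3
        have h4 : b.g⁻¹ * a.g = mk [bar x] := by
          rw [hb, mk_bar]; group
        rw [h4, toWord_mk] at h3
        have h5 : [bar x] = [(e, true)] := h3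
        exact (congrArg Prod.fst (List.cons.inj h5).1).symm
    have hex : ∃ g : F2, (g • (f x.1).1 = emb a ∧ g • (f x.1).2 = emb b) ∨
        (g • (f x.1).1 = emb b ∧ g • (f x.1).2 = emb a) := by
      obtain ⟨qa, hqa⟩ := a.rd
      obtain ⟨qb, hqb⟩ := b.rd
      have hstep : step M.src M.tgt qa x = some qb := by
        have h1 := run_mul (run_inv hqa) hqb
        rw [hx, run_singleton] at h1
        exact h1
      obtain ⟨e, bb⟩ := x
      cases bb with
      | true =>
        have hqs : qa = M.src e := by
          by_contra hcon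
          simp [step, hcon] at hstep
        obtain ⟨g, hg⟩ := exists_translate a qa hqa
        refine ⟨g, Or.inl ⟨?_, ?_⟩⟩
        · change g • (emb (repV M (M.src e)) : Hull (Vg M)) = emb a
          rw [smul_emb, ← hqs, hg]
        · change g • (emb (endV M e) : Hull (Vg M)) = emb b
          rw [smul_emb]
          congr 1
          apply Vg.ext'
          rw [hb, ← hg, Vg.smul_g, Vg.smul_g, hqs]
          change M.Θ g * (M.rep (M.src e) * mk [(e, true)]) = _
          rw [← mul_assoc]; rfl
      | false =>
        have hqs : qb = M.src e := by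
          simp only [step, Bool.false_eq_true, if_false] at hstep
          split_ifs at hstep with h
          exact (Option.some.inj hstep).symm
        obtain ⟨g, hg⟩ := exists_translate b qb hqb
        refine ⟨g, Or.inr ⟨?_, ?_⟩⟩
        · change g • (emb (repV M (M.src e)) : Hull (Vg M)) = emb b
          rw [smul_emb, ← hqs, hg]
        · change g • (emb (endV M e) : Hull (Vg M)) = emb a
          rw [smul_emb]
          congr 1
          apply Vg.ext'
          have ha : a.g = b.g * mk [(e, true)] := by
            rw [hb]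
            have : (mk [(e, false)] : FreeGroup (Fin 3)) = (mk [(e, true)])⁻¹ := mk_bar (e, true)
            rw [this]; group
          rw [ha, ← hg, Vg.smul_g, Vg.smul_g, hqs]
          change M.Θ g * (M.rep (M.src e) * mk [(e, true)]) = _
          rw [← mul_assoc]; rfl
    refine ⟨f x.1, ⟨Finset.mem_image_of_mem f (Finset.mem_univ _), hex⟩, ?_⟩
    rintro p ⟨hp, hpg⟩
    obtain ⟨e, -, rfl⟩ := Finset.mem_image.1 hp
    rw [huniq e hpg]
  · refine (Finset.sum_image (g := f) (s := Finset.univ)
      (f := fun e : Hull (Vg M) × Hull (Vg M) => dist e.1 e.2) (fun _ _ _ _ h => hf h)).trans ?_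
    apply Finset.sum_congr rfl
    intro e _
    change dist (emb (repV M (M.src e)) : Hull (Vg M)) (emb (endV M e)) = M.w e
    rw [dist_emb, Vg.dist_def, wn, label_end, wt_cons, wt_nil, add_zero]

end Pool.Agent.Helper32.Outer
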