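import Mathlib
import Pool.Agent.Helper32.Outer.Point

namespace Pool.Agent.Helper32.Outer

open FreeGroup

section cp

variable {α : Type*} [DecidableEq α]

/-- Length of the common initial part. -/
def cp (g h : FreeGroup α) : ℕ := (lcp g.toWord h.toWord).length

lemma cp_comm (g h : FreeGroup α) : cp g h = cp h g := by
  rw [cp, lcp_comm, cp]

lemma norm_inv_mul (g h : FreeGroup α) : FreeGroup.norm (g⁻¹ * h) + 2 * cp g h = FreeGroup.norm g + FreeGroup.norm h := by
  obtain ⟨p, u, v, h1, h2, h3, h4⟩ := toWord_inv_mul g h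
  rw [FreeGroup.norm, FreeGroup.norm, FreeGroup.norm, cp, h3, h4, h1, h2, List.length_append, List.length_append,
    List.length_append, invRev_length]
  ring

lemma norm_mul_cp (g h : FreeGroup α) : FreeGroup.norm (g * h) + 2 * cp g⁻¹ h = FreeGroup.norm g + FreeGroup.norm h := by
  have := norm_inv_mul g⁻¹ h
  rwa [inv_inv, norm_inv_eq] at this

lemma cp_ultra (g h k : FreeGroup α) : cp g h ≤ cp g k ∨ cp h k ≤ cp g k := by
  rcases lcp_ultra g.toWord h.toWord k.toWord with h1 | h1
  · exact Or.inl h1.length_le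
  · exact Or.inr h1.length_le

lemma cp_self (g : FreeGroup α) : cp g g = FreeGroup.norm g := by
  have := norm_inv_mul g g
  rw [inv_mul_cancel, FreeGroup.norm_one] at this
  omega

lemma norm_eq_wn (g : FreeGroup α) : wn (fun _ => (1 : ℝ)) g = FreeGroup.norm g := by
  rw [wn, FreeGroup.norm, wt]
  induction g.toWord with
  | nil => simp
  | cons x L ih =>
    simp
    ring

/-- A nontrivial element is shorter than its square. -/
lemma norm_lt_sq [Finite α] {s : FreeGroup α} (hs : s ≠ 1) : FreeGroup.norm s < FreeGroup.norm (s * s) := by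
  by_contra hcon
  push Not at hcon
  have key : ∀ n : ℕ, FreeGroup.norm (s ^ n) ≤ FreeGroup.norm s ∧ FreeGroup.norm (s ^ (n + 1)) ≤ FreeGroup.norm s := by
    intro n
    induction n with
    | zero => simp
    | succ n ih =>
      refine ⟨ih.2, ?_⟩
      have e0 : cp (s ^ (n + 1))⁻¹ s ≥ cp (s ^ (n + 1))⁻¹ s⁻¹ ∨ cp (s ^ (n + 1))⁻¹ s ≥ cp s⁻¹ s :=
        cp_ultra _ _ _
      have e1 := norm_mul_cp (s ^ (n + 1)) s
      have e2 := norm_mul_cp (s ^ (n + 1)) s⁻¹
      have e3 := norm_mul_cp s s
      rw [← pow_succ] at e1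
      have e4 : s ^ (n + 1) * s⁻¹ = s ^ n := by rw [pow_succ, mul_inv_cancel_right]
      rw [e4, norm_inv_eq] at e2
      have := ih.1
      have := ih.2
      omega
  obtain ⟨n, hn⟩ := unbounded (w := fun _ : α => (1 : ℝ)) (fun _ => one_pos) hs (FreeGroup.norm s)
  rw [norm_eq_wn] at hn
  have := (key n).1
  have h2 : FreeGroup.norm s < FreeGroup.norm (s ^ n) := by exact_mod_cast hn
  omega

lemma two_cp_lt [Finite α] {s : FreeGroup α} (hs : s ≠ 1) : 2 * cp s⁻¹ s < FreeGroup.norm s := by
  have h1 := norm_lt_sq hs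
  have h2 := norm_mul_cp s s
  omega

end cp

/-- Pairs obtained from the standard basis by Nielsen moves and conjugations. -/
inductive NR : F2 → F2 → Prop
  | base : NR (of 0) (of 1)
  | swap {s t : F2} : NR s t → NR t s
  | inv {s t : F2} : NR s t → NR s⁻¹ t
  | mul {s t : F2} : NR s t → NR s (s * t)
  | conj (g : F2) {s t : F2} : NR s t → NR (g * s * g⁻¹) (g * t * g⁻¹)

lemma NR.inv2 {s t : F2} (h : NR s t) : NR s t⁻¹ := h.swap.inv.swap

lemma NR.of_inv {s t : F2} (h : NR s⁻¹ t) : NR s t := by
  have := h.inv; rwa [inv_inv] at this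

lemma NR.of_inv2 {s t : F2} (h : NR s t⁻¹) : NR s t := by
  have := h.inv2; rwa [inv_inv] at this

/-- Undo a left multiplication. -/
lemma NR.of_mul {s t : F2} (h : NR s (s * t)) : NR s t := by
  have h1 := h.inv.mul
  rw [inv_mul_cancel_left] at h1
  exact h1.of_inv

lemma NR.of_conj (g : F2) {s t : F2} (h : NR (g * s * g⁻¹) (g * t * g⁻¹)) : NR s t := by
  have h1 := h.conj g⁻¹
  have e : ∀ s : F2, g⁻¹ * (g * s * g⁻¹) * g⁻¹⁻¹ = s := by intro s; group
  rwa [e, e] at h1

/-- Undo a right multiplication. -/
lemma NR.of_mul_right {s t : F2} (h : NR s (t * s)) : NR s t := by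
  have h1 := h.conj s
  have e1 : s * s * s⁻¹ = s := by group
  have e2 : s * (t * s) * s⁻¹ = s * t := by group
  rw [e1, e2] at h1
  exact h1.of_mul

/-- The letters associated with a pair. -/
def X (s t : F2) (l : Fin 2 × Bool) : F2 :=
  cond l.2 (if l.1 = 0 then s else t) (if l.1 = 0 then s else t)⁻¹

lemma X_bar (s t : F2) (l : Fin 2 × Bool) : X s t (bar l) = (X s t l)⁻¹ := by
  obtain ⟨i, b⟩ := l
  cases b <;> simp [X, bar]

lemma letter_cases (l l' : Fin 2 × Bool) (h : l' ≠ bar l) : l' = l ∨ l'.1 ≠ l.1 := by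
  by_cases h1 : l'.1 = l.1
  · left
    apply Prod.ext h1
    by_contra h2
    apply h
    refine Prod.ext (show l'.1 = (bar l).1 from h1) ?_
    change l'.2 = !l.2
    cases h5 : l'.2 <;> cases h6 : l.2 <;> simp_all
  · exact Or.inr h1

/-- The value of a word. -/
def val (s t : F2) (L : List (Fin 2 × Bool)) : F2 := (L.map (X s t)).prod

lemma val_append (s t : F2) (L M : List (Fin 2 × Bool)) :
    val s t (L ++ M) = val s t L * val s t M := by
  simp [val]

lemma val_singleton (s t : F2) (l : Fin 2 × Bool) : val s t [l] = X s t l := by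
  simp [val]

/-- Condition (K): no letter is cancelled completely. -/
def Kcond (s t : F2) : Prop :=
  (∀ l l2 : Fin 2 × Bool, l2 ≠ bar l → cp (X s t l)⁻¹ (X s t l2) < FreeGroup.norm (X s t l)) ∧
  ∀ l' l l2 : Fin 2 × Bool, l' ≠ bar l → l2 ≠ bar l →
    cp (X s t l')⁻¹ (X s t l) + cp (X s t l)⁻¹ (X s t l2) < FreeGroup.norm (X s t l)

lemma bar_bar (l : Fin 2 × Bool) : bar (bar l) = l := by
  ext <;> simp [bar]

/-- Local to global: reduced words have long values. -/
lemma local_global {s t : F2} (hK : Kcond s t) (L' : List (Fin 2 × Bool)) :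
    ∀ l, FreeGroup.IsReduced (L' ++ [l]) →
      (∀ l2, l2 ≠ bar l → cp (X s t l)⁻¹ (X s t l2) <
        cp (val s t (L' ++ [l]))⁻¹ (X s t l)⁻¹) ∧
      L'.length + cp (val s t (L' ++ [l]))⁻¹ (X s t l)⁻¹ ≤ FreeGroup.norm (val s t (L' ++ [l])) := by
  induction L' using List.reverseRecOn with
  | nil =>
    intro l _
    rw [List.nil_append, val_singleton, cp_self, norm_inv_eq]
    exact ⟨fun l2 h2 => hK.1 l l2 h2, by simp⟩
  | append_singleton L' l0 ih =>
    intro l hred
    obtain ⟨h1, h2⟩ := ih l0 (IsReduced_left hred)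
    have hl : l ≠ bar l0 := by
      intro h
      have h3 : FreeGroup.IsReduced ([l0] ++ [l]) := by
        rw [List.append_assoc] at hred
        exact IsReduced_right hred
      rw [FreeGroup.IsReduced, List.isChain_append] at h3
      have h4 := h3.2.2 l0 (by simp) l (by simp)
      rw [h] at h4
      have h5 := h4 rfl
      change l0.2 = !l0.2 at h5
      cases h6 : l0.2 <;> simp [h6] at h5
    have hl' : l0 ≠ bar l := fun h => hl (by rw [h, bar_bar])
    have h3 := h1 l hl
    have e1 := cp_ultra (val s t (L' ++ [l0]))⁻¹ (X s t l0)⁻¹ (X s t l)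
    have e2 := cp_ultra (X s t l0)⁻¹ (val s t (L' ++ [l0]))⁻¹ (X s t l)
    rw [cp_comm (X s t l0)⁻¹ (val s t (L' ++ [l0]))⁻¹] at e2
    have e3 := norm_mul_cp (val s t (L' ++ [l0])) (X s t l)
    have e4 : val s t (L' ++ [l0] ++ [l]) = val s t (L' ++ [l0]) * X s t l := by
      rw [val_append s t (L' ++ [l0]), val_singleton]
    rw [← e4] at e3
    have e5 := norm_mul_cp (val s t (L' ++ [l0] ++ [l])) (X s t l)⁻¹
    rw [norm_inv_eq] at e5
    have e6 : val s t (L' ++ [l0] ++ [l]) * (X s t l)⁻¹ = val s t (L' ++ [l0]) := by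
      rw [e4, mul_inv_cancel_right]
    rw [e6] at e5
    refine ⟨?_, ?_⟩
    · intro l2 h
      have h7 := hK.2 l0 l l2 hl' h
      omega
    · rw [List.length_append, List.length_singleton]
      omega

lemma length_le_norm {s t : F2} (hK : Kcond s t) (L : List (Fin 2 × Bool))
    (hL : FreeGroup.IsReduced L) : L.length ≤ FreeGroup.norm (val s t L) := by
  rcases List.eq_nil_or_concat L with rfl | ⟨L', l, rfl⟩
  · simp
  · rw [List.concat_eq_append] at hL ⊢
    obtain ⟨h1, h2⟩ := local_global hK L' l hL
    have h3 := h1 l (by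
      intro h
      have := congrArg Prod.snd h
      change l.2 = !l.2 at this
      cases h6 : l.2 <;> simp [h6] at this)
    rw [List.length_append, List.length_singleton]
    omega

lemma lift_eq_val (s t : F2) (w : F2) :
    FreeGroup.lift (fun i : Fin 2 => if i = 0 then s else t) w = val s t w.toWord := by
  conv_lhs => rw [← mk_toWord (x := w), lift_mk]
  rfl

/-- If the pair generates and (K) holds then it is the standard basis up to order and inversion. -/
lemma NR_of_K {s t : F2} (hgen : Subgroup.closure ({s, t} : Set F2) = ⊤) (hK : Kcond s t) :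
    NR s t := by
  have hsurj : Function.Surjective (FreeGroup.lift (fun i : Fin 2 => if i = 0 then s else t)) := by
    rw [lift_surjective_iff_closure_range_eq_top]
    rw [← hgen]
    congr 1
    ext g
    constructor
    · rintro ⟨i, rfl⟩
      dsimp only
      split_ifs <;> simp
    · rintro (rfl | rfl)
      · exact ⟨0, by simp⟩
      · exact ⟨1, by simp⟩
  have hone : ∀ i : Fin 2, ∃ l, X s t l = of i := by
    intro i
    obtain ⟨w, hw⟩ := hsurj (of i)
    rw [lift_eq_val] at hw
    have h1 := length_le_norm hK w.toWord isReduced_toWord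
    rw [hw, FreeGroup.norm_of] at h1
    match hL : w.toWord, h1 with
    | [], _ =>
      exfalso
      rw [hL] at hw
      exact one_ne_of i hw
    | [l], _ =>
      rw [hL, val_singleton] at hw
      exact ⟨l, hw⟩
  obtain ⟨⟨i, b⟩, h0⟩ := hone 0
  obtain ⟨⟨j, c⟩, h1⟩ := hone 1
  have h01 : (of (0 : Fin 2) : F2) ≠ of 1 := fun h => absurd (of_injective h) (by decide)
  have h01' : (of (0 : Fin 2) : F2) ≠ (of 1)⁻¹ := by
    intro h
    have := congrArg toWord h
    rw [toWord_inv, toWord_of, toWord_of] at this
    exact absurd this (by decide)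
  have hst : ∀ {u v : F2}, (∃ u' v', (u' = u ∨ u' = u⁻¹) ∧ (v' = v ∨ v' = v⁻¹) ∧ NR u' v') →
      NR u v := by
    rintro u v ⟨u', v', hu, hv, h⟩
    rcases hu with rfl | rfl <;> rcases hv with rfl | rfl
    · exact h
    · exact h.of_inv2
    · exact h.of_inv
    · exact h.of_inv.of_inv2
  have hX : ∀ (i : Fin 2) (b : Bool), X s t (i, b) = (if i = 0 then s else t) ∨
      X s t (i, b) = (if i = 0 then s else t)⁻¹ := by
    intro i b
    cases b
    · exact Or.inr rfl
    · exact Or.inl rfl
  have hi := hX i b
  have hj := hX j c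
  rw [h0] at hi
  rw [h1] at hj
  by_cases hi0 : i = 0
  · by_cases hj0 : j = 0
    · exfalso
      rw [if_pos hi0] at hi
      rw [if_pos hj0] at hj
      rcases hi with hi | hi <;> rcases hj with hj | hj
      · exact h01 (hi.trans hj.symm)
      · exact h01' (by rw [hi, hj, inv_inv])
      · exact h01' (by rw [hi, hj])
      · exact h01 (hi.trans hj.symm)
    · rw [if_pos hi0] at hi
      rw [if_neg hj0] at hj
      exact hst ⟨_, _, hi, hj, NR.base⟩
  · by_cases hj0 : j = 0
    · rw [if_neg hi0] at hi
      rw [if_pos hj0] at hj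
      exact hst ⟨_, _, hj, hi, NR.base.swap⟩
    · exfalso
      rw [if_neg hi0] at hi
      rw [if_neg hj0] at hj
      rcases hi with hi | hi <;> rcases hj with hj | hj
      · exact h01 (hi.trans hj.symm)
      · exact h01' (by rw [hi, hj, inv_inv])
      · exact h01' (by rw [hi, hj])
      · exact h01 (hi.trans hj.symm)

lemma cl_of {x y : F2} (h : Subgroup.closure ({x, y} : Set F2) = ⊤) {H : Subgroup F2} (hx : x ∈ H)
    (hy : y ∈ H) : H = ⊤ := by
  rw [← top_le_iff, ← h, Subgroup.closure_le]
  rintro g (rfl | rfl)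
  · exact hx
  · exact hy

lemma not_comm : (of (0 : Fin 2) : F2) * of 1 ≠ of 1 * of 0 := by
  intro h
  have := congrArg toWord h
  revert this
  decide

lemma ne_one_of_gen {s t : F2} (h : Subgroup.closure ({s, t} : Set F2) = ⊤) : s ≠ 1 := by
  rintro rfl
  have h1 : Subgroup.zpowers t = ⊤ :=
    cl_of h (Subgroup.one_mem _) (Subgroup.mem_zpowers t)
  have h2 : ∀ g : F2, g ∈ Subgroup.zpowers t := by intro g; rw [h1]; trivial
  obtain ⟨m, hm⟩ := Subgroup.mem_zpowers_iff.1 (h2 (of 0))
  obtain ⟨n, hn⟩ := Subgroup.mem_zpowers_iff.1 (h2 (of 1))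
  apply not_comm
  rw [← hm, ← hn, ← zpow_add, ← zpow_add, add_comm]

lemma gen_conj {x y : F2} (v : F2) (h : Subgroup.closure ({x, y} : Set F2) = ⊤) :
    Subgroup.closure ({v⁻¹ * x * v, v⁻¹ * y * v} : Set F2) = ⊤ := by
  have h1 := congrArg (Subgroup.map (MulAut.conj v⁻¹).toMonoidHom) h
  rw [MonoidHom.map_closure, Set.image_pair, ← MonoidHom.range_eq_map,
    MonoidHom.range_eq_top.2 (MulAut.conj v⁻¹).surjective] at h1
  simpa [MulAut.conj_apply] using h1

/-- In the bad case, a conjugation lowers the total length. -/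
lemma bad_lower {x y : F2} (hx : x ≠ 1) (h1 : 2 * cp y⁻¹ x = FreeGroup.norm x)
    (h2 : 2 * cp x⁻¹ y = FreeGroup.norm x) (h3 : FreeGroup.norm x ≤ FreeGroup.norm y) :
    ∃ v : F2, FreeGroup.norm (v⁻¹ * x * v) + FreeGroup.norm (v⁻¹ * (y * x) * v) <
      FreeGroup.norm x + FreeGroup.norm y := by
  obtain ⟨p, u, u', e1, e2, e3, -⟩ := toWord_inv_mul x⁻¹ y
  have hm : cp x⁻¹ y = p.length := by rw [cp, e3]
  have ev : FreeGroup.norm (mk p) = p.length := by
    rw [FreeGroup.norm, toWord_mk, (IsReduced_left (e1 ▸ isReduced_toWord)).reduce_eq]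
  have er : FreeGroup.norm ((mk p)⁻¹ * x⁻¹) = u.length := by
    have : (mk p)⁻¹ * x⁻¹ = mk u := by
      rw [← mk_toWord (x := x⁻¹), e1, ← mul_mk, inv_mul_cancel_left]
    rw [this, FreeGroup.norm, toWord_mk, (IsReduced_right (e1 ▸ isReduced_toWord)).reduce_eq]
  have ez : FreeGroup.norm ((mk p)⁻¹ * y) = u'.length := by
    have : (mk p)⁻¹ * y = mk u' := by
      rw [← mk_toWord (x := y), e2, ← mul_mk, inv_mul_cancel_left]
    rw [this, FreeGroup.norm, toWord_mk, (IsReduced_right (e2 ▸ isReduced_toWord)).reduce_eq]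
  have ex : FreeGroup.norm x = p.length + u.length := by
    rw [← norm_inv_eq, FreeGroup.norm, e1, List.length_append]
  have ey : FreeGroup.norm y = p.length + u'.length := by
    rw [FreeGroup.norm, e2, List.length_append]
  have hx0 : FreeGroup.norm x ≠ 0 := fun h => hx (norm_eq_zero.1 h)
  set v : F2 := mk p with hv
  refine ⟨v, ?_⟩
  -- first component
  have f1 : FreeGroup.norm (v⁻¹ * x * v) ≤ FreeGroup.norm x := by
    have : v⁻¹ * x * v = v⁻¹ * (v⁻¹ * x⁻¹)⁻¹ := by group
    rw [this]
    have h4 := norm_mul_le v⁻¹ (v⁻¹ * x⁻¹)⁻¹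
    rw [norm_inv_eq, norm_inv_eq] at h4
    omega
  -- second component
  have g1 : v⁻¹ * (y * x) * v = (v⁻¹ * y) * (v⁻¹ * x⁻¹)⁻¹ := by group
  have g2 := norm_mul_cp (v⁻¹ * y) (v⁻¹ * x⁻¹)⁻¹
  rw [← g1, norm_inv_eq] at g2
  have k1 := cp_ultra (v⁻¹ * y)⁻¹ y⁻¹ (v⁻¹ * x⁻¹)⁻¹
  have k2 := cp_ultra y⁻¹ x (v⁻¹ * x⁻¹)⁻¹
  have l1 := norm_mul_cp (v⁻¹ * y) y⁻¹
  rw [mul_inv_cancel_right, norm_inv_eq, norm_inv_eq] at l1
  have l2 := norm_inv_mul x (v⁻¹ * x⁻¹)⁻¹
  have l3 : x⁻¹ * (v⁻¹ * x⁻¹)⁻¹ = v := by group
  rw [l3, norm_inv_eq] at l2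
  omega

/-- Nielsen's theorem in rank two: every generating pair is obtained from the standard basis by
Nielsen moves and simultaneous conjugations. -/
theorem nielsen (n : ℕ) : ∀ s t : F2, FreeGroup.norm s + FreeGroup.norm t ≤ n →
    Subgroup.closure ({s, t} : Set F2) = ⊤ → NR s t := by
  induction n using Nat.strong_induction_on with
  | _ n ih =>
  intro s t hn hgen
  have hst : Subgroup.closure ({t, s} : Set F2) = ⊤ := by rw [Set.pair_comm]; exact hgen
  have hs1 := ne_one_of_gen hgen
  have ht1 := ne_one_of_gen hst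
  have ih' : ∀ x y : F2, FreeGroup.norm x + FreeGroup.norm y < FreeGroup.norm s + FreeGroup.norm t →
      Subgroup.closure ({x, y} : Set F2) = ⊤ → NR x y := by
    intro x y hxy hg
    exact ih _ (lt_of_lt_of_le hxy hn) x y le_rfl hg
  -- pairs of letters
  have hback : ∀ x y : F2, (x = s ∨ x = s⁻¹) → (y = t ∨ y = t⁻¹) → NR x y → NR s t := by
    rintro x y (rfl | rfl) (rfl | rfl) h
    · exact h
    · exact h.of_inv2
    · exact h.of_inv
    · exact h.of_inv.of_inv2
  have hgen' : ∀ x y : F2, (x = s ∨ x = s⁻¹) → (y = t ∨ y = t⁻¹) →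
      Subgroup.closure ({x, y} : Set F2) = ⊤ := by
    intro x y hx hy
    apply cl_of hgen
    · have h1 : x ∈ Subgroup.closure ({x, y} : Set F2) := Subgroup.subset_closure (by simp)
      rcases hx with rfl | rfl
      · exact h1
      · exact inv_mem_iff.1 h1
    · have h1 : y ∈ Subgroup.closure ({x, y} : Set F2) := Subgroup.subset_closure (by simp)
      rcases hy with rfl | rfl
      · exact h1
      · exact inv_mem_iff.1 h1
  have hnx : ∀ x : F2, (x = s ∨ x = s⁻¹) → FreeGroup.norm x = FreeGroup.norm s := by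
    rintro x (rfl | rfl)
    · rfl
    · exact norm_inv_eq
  have hny : ∀ x : F2, (x = t ∨ x = t⁻¹) → FreeGroup.norm x = FreeGroup.norm t := by
    rintro x (rfl | rfl)
    · rfl
    · exact norm_inv_eq
  by_cases hH : ∀ x y : F2, (x = s ∨ x = s⁻¹) → (y = t ∨ y = t⁻¹) →
      FreeGroup.norm x ≤ FreeGroup.norm (x * y) ∧ FreeGroup.norm y ≤ FreeGroup.norm (x * y)
  · -- no elementary move lowers the length
    have hX0 : ∀ l : Fin 2 × Bool, l.1 = 0 → (X s t l = s ∨ X s t l = s⁻¹) := by
      rintro ⟨i, b⟩ (rfl : i = 0)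
      cases b
      · exact Or.inr rfl
      · exact Or.inl rfl
    have hX1 : ∀ l : Fin 2 × Bool, l.1 = 1 → (X s t l = t ∨ X s t l = t⁻¹) := by
      rintro ⟨i, b⟩ (rfl : i = 1)
      cases b
      · exact Or.inr rfl
      · exact Or.inl rfl
    have hfin : ∀ i : Fin 2, i = 0 ∨ i = 1 := by decide
    have F0 : ∀ l : Fin 2 × Bool, X s t l ≠ 1 := by
      intro l
      rcases hfin l.1 with h | h
      · rcases hX0 l h with h1 | h1
        · rw [h1]; exact hs1
        · rw [h1]; exact inv_ne_one.2 hs1
      · rcases hX1 l h with h1 | h1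
        · rw [h1]; exact ht1
        · rw [h1]; exact inv_ne_one.2 ht1
    have F1 : ∀ l : Fin 2 × Bool, 2 * cp (X s t l)⁻¹ (X s t l) < FreeGroup.norm (X s t l) :=
      fun l => two_cp_lt (F0 l)
    have F2' : ∀ l l2 : Fin 2 × Bool, l2.1 ≠ l.1 →
        2 * cp (X s t l)⁻¹ (X s t l2) ≤ FreeGroup.norm (X s t l) ∧
        2 * cp (X s t l)⁻¹ (X s t l2) ≤ FreeGroup.norm (X s t l2) := by
      intro l l2 h
      have e := norm_mul_cp (X s t l) (X s t l2)
      rcases hfin l.1 with h1 | h1
      · have h2 : l2.1 = 1 := by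
          rcases hfin l2.1 with h2 | h2
          · exact absurd (h2.trans h1.symm) h
          · exact h2
        have h3 := hH _ _ (hX0 l h1) (hX1 l2 h2)
        omega
      · have h2 : l2.1 = 0 := by
          rcases hfin l2.1 with h2 | h2
          · exact h2
          · exact absurd (h2.trans h1.symm) h
        have h3 := hH (X s t l2)⁻¹ (X s t l)⁻¹
          (by rcases hX0 l2 h2 with h4 | h4 <;> rw [h4] <;> simp)
          (by rcases hX1 l h1 with h4 | h4 <;> rw [h4] <;> simp)
        rw [← mul_inv_rev, norm_inv_eq, norm_inv_eq, norm_inv_eq] at h3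
        omega
    by_cases hK : Kcond s t
    · exact NR_of_K hgen hK
    · -- find the bad configuration
      have hbad : ∃ l l2 : Fin 2 × Bool, l2.1 ≠ l.1 ∧
          2 * cp (X s t l2)⁻¹ (X s t l) = FreeGroup.norm (X s t l) ∧
          2 * cp (X s t l)⁻¹ (X s t l2) = FreeGroup.norm (X s t l) := by
        by_contra hcon
        push Not at hcon
        apply hK
        constructor
        · intro l l2 h
          have h0 : FreeGroup.norm (X s t l) ≠ 0 := fun h => F0 l (norm_eq_zero.1 h)
          rcases letter_cases l l2 h with rfl | h1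
          · have := F1 l2; omega
          · have := (F2' l l2 h1).1; omega
        · intro l' l l2 hl' hl2
          have h0 : FreeGroup.norm (X s t l) ≠ 0 := fun h => F0 l (norm_eq_zero.1 h)
          have hf := F1 l
          rcases letter_cases l l2 hl2 with h2 | h2
          · rw [h2]
            rcases letter_cases l l' hl' with h1 | h1
            · rw [h1]; omega
            · have := (F2' l' l (Ne.symm h1)).2; omega
          · have g2 := (F2' l l2 h2).1
            rcases letter_cases l l' hl' with h1 | h1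
            · rw [h1]; omega
            · have g1 := (F2' l' l (Ne.symm h1)).2
              by_contra hc
              have g3 : l'.1 = l2.1 := by
                revert h1 h2
                generalize l'.1 = i1
                generalize l.1 = i2
                generalize l2.1 = i3
                revert i1 i2 i3
                decide
              by_cases g4 : l' = l2
              · subst g4
                exact hcon l l' h2 (by omega) (by omega)
              · -- l2 is the inverse letter of l'
                have g5 : l2 = bar l' := by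
                  by_contra g6
                  rcases letter_cases l' l2 g6 with g7 | g7
                  · exact g4 g7.symm
                  · exact g7 g3.symm
                have g8 := cp_ultra (X s t l)⁻¹ (X s t l2) (X s t l)
                rw [g5, X_bar] at g8
                rw [g5, X_bar] at g2 hc
                omega
      obtain ⟨l, l2, hll, hb1, hb2⟩ := hbad
      have hle : FreeGroup.norm (X s t l) ≤ FreeGroup.norm (X s t l2) := by
        have := (F2' l l2 hll).2; omega
      obtain ⟨v, hv⟩ := bad_lower (F0 l) hb1 hb2 hle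
      have hNR : Subgroup.closure ({X s t l, X s t l2} : Set F2) = ⊤ →
          FreeGroup.norm (X s t l) + FreeGroup.norm (X s t l2) =
            FreeGroup.norm s + FreeGroup.norm t → NR (X s t l) (X s t l2) := by
        intro hg hsum
        have hg2 : Subgroup.closure ({X s t l, X s t l2 * X s t l} : Set F2) = ⊤ := by
          apply cl_of hg
          · exact Subgroup.subset_closure (by simp)
          · have k1 : X s t l ∈ Subgroup.closure ({X s t l, X s t l2 * X s t l} : Set F2) :=
              Subgroup.subset_closure (by simp)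
            have k2 : X s t l2 * X s t l ∈
                Subgroup.closure ({X s t l, X s t l2 * X s t l} : Set F2) :=
              Subgroup.subset_closure (by simp)
            have := Subgroup.mul_mem _ k2 (Subgroup.inv_mem _ k1)
            rwa [mul_inv_cancel_right] at this
        have h1 := ih' _ _ (by omega) (gen_conj v hg2)
        have h2 : NR (X s t l) (X s t l2 * X s t l) := by
          apply NR.of_conj v⁻¹
          rw [inv_inv]
          exact h1
        exact h2.of_mul_right
      rcases hfin l.1 with h1 | h1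
      · have h2 : l2.1 = 1 := by
          rcases hfin l2.1 with h2 | h2
          · exact absurd (h2.trans h1.symm) hll
          · exact h2
        have hx := hX0 l h1
        have hy := hX1 l2 h2
        apply hback _ _ hx hy
        exact hNR (hgen' _ _ hx hy) (by rw [hnx _ hx, hny _ hy])
      · have h2 : l2.1 = 0 := by
          rcases hfin l2.1 with h2 | h2
          · exact h2
          · exact absurd (h2.trans h1.symm) hll
        have hx := hX0 l2 h2
        have hy := hX1 l h1
        apply hback _ _ hx hy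
        apply NR.swap
        exact hNR (by rw [Set.pair_comm]; exact hgen' _ _ hx hy)
          (by rw [hnx _ hx, hny _ hy, add_comm])
  · push Not at hH
    obtain ⟨x, y, hx, hy, hxy⟩ := hH
    apply hback x y hx hy
    have hg := hgen' x y hx hy
    have e1 := hnx x hx
    have e2 := hny y hy
    by_cases hlt : FreeGroup.norm (x * y) < FreeGroup.norm y
    · have hg2 : Subgroup.closure ({x, x * y} : Set F2) = ⊤ := by
        apply cl_of hg
        · exact Subgroup.subset_closure (by simp)
        · have k1 : x ∈ Subgroup.closure ({x, x * y} : Set F2) :=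
            Subgroup.subset_closure (by simp)
          have k2 : x * y ∈ Subgroup.closure ({x, x * y} : Set F2) :=
            Subgroup.subset_closure (by simp)
          have := Subgroup.mul_mem _ (Subgroup.inv_mem _ k1) k2
          rwa [inv_mul_cancel_left] at this
      exact (ih' x (x * y) (by omega) hg2).of_mul
    · have hlt2 : FreeGroup.norm (x * y) < FreeGroup.norm x := by
        by_contra hc
        have := hxy (by omega)
        omega
      have hg2 : Subgroup.closure ({y, x * y} : Set F2) = ⊤ := by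
        apply cl_of hg
        · have k1 : y ∈ Subgroup.closure ({y, x * y} : Set F2) :=
            Subgroup.subset_closure (by simp)
          have k2 : x * y ∈ Subgroup.closure ({y, x * y} : Set F2) :=
            Subgroup.subset_closure (by simp)
          have := Subgroup.mul_mem _ k2 (Subgroup.inv_mem _ k1)
          rwa [mul_inv_cancel_right] at this
        · exact Subgroup.subset_closure (by simp)
      exact (ih' y (x * y) (by omega) hg2).of_mul_right.swap

end Pool.Agent.Helper32.Outer
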