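import Mathlib
import Pool.Agent.Helper32.Outer.Nielsen

namespace Pool.Agent.Helper32.Outer

open FreeGroup

/-- Pairs obtained from `(x, y)` by positive Nielsen moves. -/
inductive Pos2 (x y : F2) : F2 → F2 → Prop
  | base : Pos2 x y x y
  | L {s t : F2} : Pos2 x y s t → Pos2 x y s (s * t)
  | R {s t : F2} : Pos2 x y s t → Pos2 x y (s * t) t

lemma Pos2.mem {x y s t : F2} (h : Pos2 x y s t) :
    s ∈ Submonoid.closure ({x, y} : Set F2) ∧ t ∈ Submonoid.closure ({x, y} : Set F2) := by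
  induction h with
  | base => exact ⟨Submonoid.subset_closure (by simp), Submonoid.subset_closure (by simp)⟩
  | L _ ih => exact ⟨ih.1, Submonoid.mul_mem _ ih.1 ih.2⟩
  | R _ ih => exact ⟨Submonoid.mul_mem _ ih.1 ih.2, ih.2⟩

/-- `x` is a generator or its inverse. -/
def IsA (x : F2) : Prop := x = of 0 ∨ x = (of 0)⁻¹
def IsB (x : F2) : Prop := x = of 1 ∨ x = (of 1)⁻¹

lemma IsA.inv {x : F2} (h : IsA x) : IsA x⁻¹ := by
  rcases h with rfl | rfl
  · exact Or.inr rfl
  · left; rw [inv_inv]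

lemma IsB.inv {x : F2} (h : IsB x) : IsB x⁻¹ := by
  rcases h with rfl | rfl
  · exact Or.inr rfl
  · left; rw [inv_inv]

/-- The class of all pairs obtained from positive pairs by conjugations, inversions, swap. -/
inductive BB : F2 → F2 → Prop
  | pos {x y s t : F2} : IsA x → IsB y → Pos2 x y s t → BB s t
  | swap {s t : F2} : BB s t → BB t s
  | inv {s t : F2} : BB s t → BB s⁻¹ t
  | conj (g : F2) {s t : F2} : BB s t → BB (g * s * g⁻¹) (g * t * g⁻¹)

lemma BB.inv2 {s t : F2} (h : BB s t) : BB s t⁻¹ := h.swap.inv.swap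

lemma BB.of_inv {s t : F2} (h : BB s⁻¹ t) : BB s t := by
  have := h.inv; rwa [inv_inv] at this

lemma BB.of_inv2 {s t : F2} (h : BB s t⁻¹) : BB s t := by
  have := h.inv2; rwa [inv_inv] at this

lemma BB.conj_eq {s t s' t' : F2} (h : BB s t) (g : F2) (h1 : s' = g * s * g⁻¹)
    (h2 : t' = g * t * g⁻¹) : BB s' t' := by
  rw [h1, h2]; exact h.conj g

lemma BB.Linv {x y s t : F2} (hx : IsA x) (hy : IsB y) (h : Pos2 x y s t) : BB s (s⁻¹ * t) := by
  cases h with
  | base => exact (BB.pos hx.inv hy (Pos2.base.L)).of_inv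
  | @L s t h => rw [inv_mul_cancel_left]; exact BB.pos hx hy h
  | @R s t h =>
    -- `(s t, t⁻¹ s⁻¹ t)`
    have h1 : BB s (s * t) := BB.pos hx hy h.L
    have h2 : BB s (t * s) := h1.conj_eq s⁻¹ (by group) (by group)
    have h3 : BB (t * s) s⁻¹ := h2.inv.swap
    exact h3.conj_eq t⁻¹ (by group) (by group)

lemma BB.Rinv {x y s t : F2} (hx : IsA x) (hy : IsB y) (h : Pos2 x y s t) : BB (s * t⁻¹) t := by
  cases h with
  | base => exact (BB.pos hx hy.inv (Pos2.base.R)).of_inv2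
  | @L s t h =>
    -- `(s (s t)⁻¹, s t)`
    have h1 : BB (s * t) t := BB.pos hx hy h.R
    have h2 : BB (t * s) t := h1.conj_eq t (by group) (by group)
    have h3 : BB t⁻¹ (t * s) := h2.swap.inv
    exact h3.conj_eq s (by group) (by group)
  | @R s t h => rw [mul_inv_cancel_right]; exact BB.pos hx hy h

/-- All signed products. -/
lemma BB.mul_all {s t : F2} (h : BB s t) :
    BB s (s * t) ∧ BB s (s⁻¹ * t) ∧ BB (s * t) t ∧ BB (s * t⁻¹) t := by
  induction h with
  | @pos x y s t hx hy h => exact ⟨.pos hx hy h.L, .Linv hx hy h, .pos hx hy h.R, .Rinv hx hy h⟩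
  | @swap s t _ ih =>
    obtain ⟨h1, h2, h3, h4⟩ := ih
    refine ⟨?_, ?_, ?_, ?_⟩
    · exact (h3.conj_eq t (by group) (by group)).swap
    · exact (h4.conj_eq t⁻¹ (by group) (by group)).swap
    · exact (h1.conj_eq s⁻¹ (by group) (by group)).swap
    · exact (h2.conj_eq s (by group) (by group)).swap
  | @inv s t _ ih =>
    obtain ⟨h1, h2, h3, h4⟩ := ih
    refine ⟨h2.inv, ?_, ?_, ?_⟩
    · rw [inv_inv]; exact h1.inv
    · have := h4.inv.conj_eq t⁻¹ (s' := s⁻¹ * t) (t' := t) (by group) (by group)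
      exact this
    · have := h3.inv.conj_eq t (s' := s⁻¹ * t⁻¹) (t' := t) (by group) (by group)
      exact this
  | @conj g s t _ ih =>
    obtain ⟨h1, h2, h3, h4⟩ := ih
    refine ⟨h1.conj_eq g rfl (by group), h2.conj_eq g rfl (by group), h3.conj_eq g (by group) rfl,
      h4.conj_eq g (by group) rfl⟩

lemma BB_of_NR {s t : F2} (h : NR s t) : BB s t := by
  induction h with
  | base => exact BB.pos (Or.inl rfl) (Or.inl rfl) Pos2.base
  | swap _ ih => exact ih.swap
  | inv _ ih => exact ih.inv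
  | mul _ ih => exact ih.mul_all.1
  | conj g _ ih => exact ih.conj g

/-- `s` is conjugate to a positive word in `x, y`, or to the inverse of one. -/
def Nice (x y s : F2) : Prop :=
  ∃ g W : F2, W ∈ Submonoid.closure ({x, y} : Set F2) ∧ (s = g * W * g⁻¹ ∨ s = g * W⁻¹ * g⁻¹)

lemma Nice.inv {x y s : F2} (h : Nice x y s) : Nice x y s⁻¹ := by
  obtain ⟨g, W, hW, h⟩ := h
  refine ⟨g, W, hW, ?_⟩
  rcases h with rfl | rfl
  · right; group
  · left; group

lemma Nice.conj {x y s : F2} (h : Nice x y s) (g : F2) : Nice x y (g * s * g⁻¹) := by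
  obtain ⟨k, W, hW, h⟩ := h
  refine ⟨g * k, W, hW, ?_⟩
  rcases h with rfl | rfl
  · left; group
  · right; group

lemma nice_of_BB {s t : F2} (h : BB s t) :
    ∃ x y, IsA x ∧ IsB y ∧ Nice x y s ∧ Nice x y t := by
  induction h with
  | @pos x y s t hx hy h =>
    exact ⟨x, y, hx, hy, ⟨1, s, h.mem.1, Or.inl (by group)⟩, ⟨1, t, h.mem.2, Or.inl (by group)⟩⟩
  | swap _ ih =>
    obtain ⟨x, y, hx, hy, h1, h2⟩ := ih
    exact ⟨x, y, hx, hy, h2, h1⟩
  | inv _ ih =>
    obtain ⟨x, y, hx, hy, h1, h2⟩ := ih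
    exact ⟨x, y, hx, hy, h1.inv, h2⟩
  | conj g _ ih =>
    obtain ⟨x, y, hx, hy, h1, h2⟩ := ih
    exact ⟨x, y, hx, hy, h1.conj g, h2.conj g⟩

/-- Every primitive element is conjugate to a positive word in `a^{±1}, b^{±1}` or to the inverse
of one. -/
theorem nice_of_primitive {s : F2} (hs : IsPrimitive s) : ∃ x y, IsA x ∧ IsB y ∧ Nice x y s := by
  obtain ⟨ι, b, i, rfl⟩ := hs
  let e : FreeGroup (Fin 2) ≃* FreeGroup ι := b.repr
  let f : Fin 2 ≃ ι := Equiv.ofFreeGroupEquiv e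
  have hgen : Subgroup.closure (Set.range b) = ⊤ := by
    have h1 : Set.range b = b.repr.symm '' Set.range (of : ι → FreeGroup ι) := by
      rw [← Set.range_comp]
      rfl
    have h2 := congrArg (Subgroup.map b.repr.symm.toMonoidHom) (closure_range_of ι)
    rw [MonoidHom.map_closure, ← MonoidHom.range_eq_map,
      MonoidHom.range_eq_top.2 b.repr.symm.surjective] at h2
    rw [h1]
    exact h2
  have hpair : Set.range b = {b (f 0), b (f 1)} := by
    ext g
    constructor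
    · rintro ⟨j, rfl⟩
      obtain ⟨k, rfl⟩ := f.surjective j
      have : k = 0 ∨ k = 1 := by
        revert k; decide
      rcases this with rfl | rfl <;> simp
    · rintro (rfl | rfl)
      · exact ⟨_, rfl⟩
      · exact ⟨_, rfl⟩
  rw [hpair] at hgen
  obtain ⟨x, y, hx, hy, h1, h2⟩ := nice_of_BB (BB_of_NR (nielsen _ _ _ le_rfl hgen))
  have hmem : b i ∈ ({b (f 0), b (f 1)} : Set F2) := by rw [← hpair]; exact ⟨i, rfl⟩
  rcases hmem with h | h
  · exact ⟨x, y, hx, hy, by rw [h]; exact h1⟩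
  · exact ⟨x, y, hx, hy, by rw [Set.mem_singleton_iff.1 h]; exact h2⟩

end Pool.Agent.Helper32.Outer
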