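import Mathlib
import Pool.Agent.Helper32.Outer.Prim

namespace Pool.Agent.Helper32.Outer

open FreeGroup

/-- The new basis: `v_N = a^N b`. -/
def vN (N : ℕ) : F2 := of 0 ^ N * of 1
/-- The new basis: `u_N = (a^{N+1} b)⁻¹`. -/
def uN (N : ℕ) : F2 := (of 0 ^ (N + 1) * of 1)⁻¹

lemma vN_mul_uN (N : ℕ) : vN N * uN N = (of 0)⁻¹ := by
  rw [vN, uN, pow_succ]; group

lemma vu_pow (N j : ℕ) : (vN N * uN N) ^ j = ((of 0) ^ j)⁻¹ := by
  rw [vN_mul_uN, inv_pow]

lemma block_eq {N i : ℕ} (h : i ≤ N) :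
    (of 0 : F2) ^ i * of 1 = (vN N * uN N) ^ (N - i) * vN N := by
  rw [vu_pow, vN, ← mul_assoc]
  congr 1
  rw [eq_inv_mul_iff_mul_eq, ← pow_add]
  congr 1
  omega

lemma vN_mem (N : ℕ) : vN N ∈ Submonoid.closure ({vN N, uN N} : Set F2) :=
  Submonoid.subset_closure (by simp)

lemma uN_mem (N : ℕ) : uN N ∈ Submonoid.closure ({vN N, uN N} : Set F2) :=
  Submonoid.subset_closure (by simp)

lemma block_mem {N i : ℕ} (h : i ≤ N) :
    (of 0 : F2) ^ i * of 1 ∈ Submonoid.closure ({vN N, uN N} : Set F2) := by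
  rw [block_eq h]
  exact Submonoid.mul_mem _ (Submonoid.pow_mem _ (Submonoid.mul_mem _ (vN_mem N) (uN_mem N)) _)
    (vN_mem N)

/-- Positive words in `a, b`. -/
lemma word_ab {W : F2} (hW : W ∈ Submonoid.closure ({of 0, of 1} : Set F2)) :
    ∃ j K : ℕ, ∃ W' ∈ Submonoid.closure {g : F2 | ∃ i ≤ K, g = of 0 ^ i * of 1},
      W = W' * of 0 ^ j := by
  induction hW using Submonoid.closure_induction_right with
  | one => exact ⟨0, 0, 1, Submonoid.one_mem _, by simp⟩
  | mul_right x _ y hy ih =>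
    obtain ⟨j, K, W', hW', rfl⟩ := ih
    rcases hy with rfl | hy
    · exact ⟨j + 1, K, W', hW', by rw [pow_succ, mul_assoc]⟩
    · rw [Set.mem_singleton_iff] at hy
      subst hy
      refine ⟨0, max K j, W' * (of 0 ^ j * of 1), Submonoid.mul_mem _ ?_ ?_, by
        rw [pow_zero, mul_one, mul_assoc]⟩
      · refine Submonoid.closure_mono ?_ hW'
        rintro g ⟨i, hi, rfl⟩
        exact ⟨i, hi.trans (le_max_left _ _), rfl⟩
      · exact Submonoid.subset_closure ⟨j, le_max_right _ _, rfl⟩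

lemma blocks_mem {N K : ℕ} (h : K ≤ N) {W : F2}
    (hW : W ∈ Submonoid.closure {g : F2 | ∃ i ≤ K, g = of 0 ^ i * of 1}) :
    W ∈ Submonoid.closure ({vN N, uN N} : Set F2) := by
  have : Submonoid.closure {g : F2 | ∃ i ≤ K, g = of 0 ^ i * of 1} ≤
      Submonoid.closure ({vN N, uN N} : Set F2) := by
    rw [Submonoid.closure_le]
    rintro g ⟨i, hi, rfl⟩
    exact block_mem (hi.trans h)
  exact this hW

lemma nice_ab {W : F2} (hW : W ∈ Submonoid.closure ({of 0, of 1} : Set F2)) :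
    ∃ K : ℕ, ∀ N ≥ K, Nice (vN N) (uN N) W := by
  obtain ⟨j, K, W', hW', rfl⟩ := word_ab hW
  refine ⟨K + j, fun N hN => ?_⟩
  have hcase : W' = 1 ∨ ∃ i ≤ K, ∃ W'' ∈ Submonoid.closure {g : F2 | ∃ i ≤ K, g = of 0 ^ i * of 1},
      W' = (of 0 ^ i * of 1) * W'' := by
    induction hW' using Submonoid.closure_induction_left with
    | one => exact Or.inl rfl
    | mul_left x hx y hy _ =>
      obtain ⟨i, hi, rfl⟩ := hx
      exact Or.inr ⟨i, hi, y, hy, rfl⟩
  rcases hcase with rfl | ⟨i, hi, W'', hW'', rfl⟩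
  · refine ⟨1, (vN N * uN N) ^ j, Submonoid.pow_mem _ (Submonoid.mul_mem _ (vN_mem N) (uN_mem N)) _,
      Or.inr ?_⟩
    rw [vu_pow]; group
  · refine ⟨(of 0 ^ j)⁻¹, (of 0 ^ (j + i) * of 1) * W'', Submonoid.mul_mem _ (block_mem (by omega))
      (blocks_mem (by omega) hW''), Or.inl ?_⟩
    rw [pow_add]; group

lemma nice_a'b {W : F2} (hW : W ∈ Submonoid.closure ({(of 0)⁻¹, of 1} : Set F2)) (N : ℕ) :
    Nice (vN N) (uN N) W := by
  refine ⟨1, W, ?_, Or.inl (by group)⟩
  have : Submonoid.closure ({(of 0)⁻¹, of 1} : Set F2) ≤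
      Submonoid.closure ({vN N, uN N} : Set F2) := by
    rw [Submonoid.closure_le]
    rintro g (rfl | hg)
    · rw [← vN_mul_uN N]
      exact Submonoid.mul_mem _ (vN_mem N) (uN_mem N)
    · rw [Set.mem_singleton_iff] at hg
      subst hg
      have := block_mem (N := N) (i := 0) (Nat.zero_le _)
      rwa [pow_zero, one_mul] at this
  exact this hW

lemma inv_mem_closure_inv {x y W : F2} (hW : W ∈ Submonoid.closure ({x, y} : Set F2)) :
    W⁻¹ ∈ Submonoid.closure ({x⁻¹, y⁻¹} : Set F2) := by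
  induction hW using Submonoid.closure_induction with
  | mem g hg =>
    apply Submonoid.subset_closure
    rcases hg with rfl | hg
    · simp
    · rw [Set.mem_singleton_iff] at hg
      subst hg; simp
  | one => rw [inv_one]; exact Submonoid.one_mem _
  | mul g h _ _ hg hh => rw [mul_inv_rev]; exact Submonoid.mul_mem _ hh hg

lemma nice_word {x y W : F2} (hx : IsA x) (hy : IsB y)
    (hW : W ∈ Submonoid.closure ({x, y} : Set F2)) : ∃ K : ℕ, ∀ N ≥ K, Nice (vN N) (uN N) W := by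
  rcases hy with rfl | rfl
  · rcases hx with rfl | rfl
    · exact nice_ab hW
    · exact ⟨0, fun N _ => nice_a'b hW N⟩
  · have hW' := inv_mem_closure_inv hW
    rw [inv_inv] at hW'
    have key : ∃ K : ℕ, ∀ N ≥ K, Nice (vN N) (uN N) W⁻¹ := by
      rcases hx with rfl | rfl
      · exact ⟨0, fun N _ => nice_a'b hW' N⟩
      · rw [inv_inv] at hW'
        exact nice_ab hW'
    obtain ⟨K, hK⟩ := key
    refine ⟨K, fun N hN => ?_⟩
    have := (hK N hN).inv
    rwa [inv_inv] at this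

/-- For large `N`, a given primitive element is conjugate to a positive word in `v_N, u_N` or to
the inverse of one. -/
theorem nice_primitive {s : F2} (hs : IsPrimitive s) : ∃ K : ℕ, ∀ N ≥ K, Nice (vN N) (uN N) s := by
  obtain ⟨x, y, hx, hy, g, W, hW, h⟩ := nice_of_primitive hs
  obtain ⟨K, hK⟩ := nice_word hx hy hW
  refine ⟨K, fun N hN => ?_⟩
  rcases h with rfl | rfl
  · exact (hK N hN).conj g
  · exact (hK N hN).inv.conj g

/-- Uniform version for finite sets. -/
theorem nice_finite {S : Set F2} (hS : S.Finite) (hp : ∀ s ∈ S, IsPrimitive s) :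
    ∃ N : ℕ, ∀ s ∈ S, Nice (vN N) (uN N) s := by
  have : ∀ s : F2, ∃ K : ℕ, s ∈ S → ∀ N ≥ K, Nice (vN N) (uN N) s := by
    intro s
    by_cases h : s ∈ S
    · obtain ⟨K, hK⟩ := nice_primitive (hp s h)
      exact ⟨K, fun _ => hK⟩
    · exact ⟨0, fun h' => absurd h' h⟩
  choose K hK using this
  obtain ⟨N, hN⟩ := (hS.image K).bddAbove
  exact ⟨N, fun s hs => hK s hs N (hN ⟨s, hs, rfl⟩)⟩

end Pool.Agent.Helper32.Outer
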