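import Mathlib
import Pool.Agent.Helper32.Outer.Change

namespace Pool.Agent.Helper32.Outer

open FreeGroup

/-- Powers of cyclically reduced words. -/
lemma wn_pow_cyc (w : Fin 3 → ℝ) {L : List (Fin 3 × Bool)} (hL : IsCyclicallyReduced L) (n : ℕ) :
    wn w (mk L ^ n) = n * wt w L := by
  rw [pow_mk, wn, toWord_mk, (hL.flatten_replicate n).isReduced.reduce_eq]
  induction n with
  | zero => simp [wt_nil]
  | succ n ih =>
    rw [List.replicate_succ, List.flatten_cons, wt_append, ih]
    push_cast; ring

lemma cyc1 (a : Fin 3 × Bool) : IsCyclicallyReduced [a] := IsCyclicallyReduced.singleton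

lemma cyc2 {a b : Fin 3 × Bool} (h : a.1 ≠ b.1) : IsCyclicallyReduced [a, b] := by
  rw [isCyclicallyReduced_iff]
  refine ⟨?_, ?_⟩
  · rw [isReduced_cons_cons]
    exact ⟨fun h' => absurd h' h, IsReduced.singleton⟩
  · intro x hx y hy hxy
    simp at hx hy
    subst hx; subst hy
    exact absurd hxy.symm h

lemma wn_cyc (w : Fin 3 → ℝ) {L : List (Fin 3 × Bool)} (hL : IsCyclicallyReduced L) :
    wn w (mk L) = wt w L := by
  have h1 := wn_pow_cyc w hL 1
  rwa [pow_one, Nat.cast_one, one_mul] at h1

/-- The homomorphism `F2 → FreeGroup (Fin 3)` with `v_N ↦ V`, `u_N ↦ U`. -/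
def Th (V U : FreeGroup (Fin 3)) (N : ℕ) : F2 →* FreeGroup (Fin 3) :=
  FreeGroup.lift (fun i => if i = 0 then (V * U)⁻¹ else (V * U) ^ N * V)

lemma Th_zero (V U : FreeGroup (Fin 3)) (N : ℕ) : Th V U N (of 0) = (V * U)⁻¹ := by
  rw [Th, lift_apply_of, if_pos rfl]

lemma Th_one (V U : FreeGroup (Fin 3)) (N : ℕ) : Th V U N (of 1) = (V * U) ^ N * V := by
  rw [Th, lift_apply_of, if_neg (by decide)]

lemma Th_vN (V U : FreeGroup (Fin 3)) (N : ℕ) : Th V U N (vN N) = V := by
  rw [vN, _root_.map_mul, _root_.map_pow, Th_zero, Th_one, inv_pow]; group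

lemma Th_uN (V U : FreeGroup (Fin 3)) (N : ℕ) : Th V U N (uN N) = U := by
  have h := congrArg (Th V U N) (vN_mul_uN N)
  rw [_root_.map_mul, Th_vN, _root_.map_inv, Th_zero, inv_inv] at h
  exact mul_left_cancel h

/-- The common retraction. -/
def retr (N : ℕ) : FreeGroup (Fin 3) →* F2 :=
  FreeGroup.lift (fun i => if i = 0 then vN N else if i = 1 then (vN N)⁻¹ * uN N else 1)

lemma Th_injective {V U : FreeGroup (Fin 3)} {N : ℕ} (hV : retr N V = vN N)
    (hU : retr N U = uN N) : Function.Injective (Th V U N) := by
  have h : (retr N).comp (Th V U N) = MonoidHom.id F2 := by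
    apply FreeGroup.ext_hom
    intro i
    have hi : i = 0 ∨ i = 1 := by revert i; decide
    rcases hi with rfl | rfl
    · rw [MonoidHom.comp_apply, Th_zero, _root_.map_inv, _root_.map_mul, hV, hU, vN_mul_uN,
        inv_inv]; rfl
    · rw [MonoidHom.comp_apply, Th_one, _root_.map_mul, _root_.map_pow, _root_.map_mul, hV, hU,
        vu_pow, vN, inv_mul_cancel_left]; rfl
  intro g g' hg
  have h1 := congrArg (retr N) hg
  have h2 := DFunLike.congr_fun h g
  have h3 := DFunLike.congr_fun h g'
  rw [MonoidHom.comp_apply] at h2 h3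
  rw [h2, h3] at h1
  exact h1

/-- Closed words form a subgroup. -/
def closedSub (src tgt : Fin 3 → Bool) : Subgroup (FreeGroup (Fin 3)) where
  carrier := {k | run src tgt false k.toWord = some false}
  mul_mem' := fun ha hb => run_mul ha hb
  one_mem' := by
    change run src tgt false (1 : FreeGroup (Fin 3)).toWord = some false
    rw [toWord_one]; rfl
  inv_mem' := fun ha => run_inv ha

lemma Th_closed {src tgt : Fin 3 → Bool} {V U : FreeGroup (Fin 3)} (hV : V ∈ closedSub src tgt)
    (hU : U ∈ closedSub src tgt) (N : ℕ) (g : F2) :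
    run src tgt false (Th V U N g).toWord = some false := by
  have h1 : (Th V U N).range ≤ closedSub src tgt := by
    apply range_lift_le
    rintro _ ⟨i, rfl⟩
    dsimp only
    split_ifs
    · exact Subgroup.inv_mem _ (Subgroup.mul_mem _ hV hU)
    · exact Subgroup.mul_mem _ (Subgroup.pow_mem _ (Subgroup.mul_mem _ hV hU) _) hV
  exact h1 ⟨g, rfl⟩

lemma Th_surj {src tgt : Fin 3 → Bool} {V U : FreeGroup (Fin 3)} {N : ℕ}
    (rep : Bool → FreeGroup (Fin 3)) (hrep : rep false = 1)
    (hedge : ∀ e : Fin 3, rep (src e) * mk [(e, true)] * (rep (tgt e))⁻¹ ∈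
      Subgroup.closure ({V, U} : Set (FreeGroup (Fin 3))))
    (k : FreeGroup (Fin 3)) (hk : run src tgt false k.toWord = some false) :
    ∃ g, Th V U N g = k := by
  have hcl : Subgroup.closure ({V, U} : Set (FreeGroup (Fin 3))) ≤ (Th V U N).range := by
    rw [Subgroup.closure_le]
    rintro g (rfl | hg)
    · exact ⟨vN N, Th_vN _ _ _⟩
    · rw [Set.mem_singleton_iff] at hg
      subst hg
      exact ⟨uN N, Th_uN _ _ _⟩
  have hstep : ∀ q q' (x : Fin 3 × Bool), step src tgt q x = some q' →
      rep q * mk [x] * (rep q')⁻¹ ∈ (Th V U N).range := by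
    rintro q q' ⟨e, b⟩ h
    cases b with
    | true =>
      simp only [step, if_true] at h
      split_ifs at h with h1
      rw [Option.some.injEq] at h
      rw [h1, ← h]
      exact hcl (hedge e)
    | false =>
      simp only [step, Bool.false_eq_true, if_false] at h
      split_ifs at h with h1
      rw [Option.some.injEq] at h
      rw [h1, ← h]
      have h2 := (Th V U N).range.inv_mem (hcl (hedge e))
      have h3 : (mk [(e, false)] : FreeGroup (Fin 3)) = (mk [(e, true)])⁻¹ := mk_bar (e, true)
      rw [h3]
      convert h2 using 1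
      group
  have key : ∀ L : List (Fin 3 × Bool), ∀ q, run src tgt false L = some q →
      mk L * (rep q)⁻¹ ∈ (Th V U N).range := by
    intro L
    induction L using List.reverseRecOn with
    | nil =>
      intro q hq
      rw [run_nil, Option.some.injEq] at hq
      subst hq
      rw [hrep]
      have : (mk [] : FreeGroup (Fin 3)) * 1⁻¹ = 1 := by rw [← one_eq_mk]; group
      rw [this]
      exact Subgroup.one_mem _
    | append_singleton L x ih =>
      intro q hq
      obtain ⟨q1, h1, h2⟩ := run_of_append hq
      rw [run_singleton] at h2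
      have h3 := Subgroup.mul_mem _ (ih q1 h1) (hstep _ _ _ h2)
      have h4 : mk (L ++ [x]) * (rep q)⁻¹ = mk L * (rep q1)⁻¹ * (rep q1 * mk [x] * (rep q)⁻¹) := by
        rw [← mul_mk]; group
      rw [h4]
      exact h3
  have h5 := key k.toWord false hk
  rw [hrep, mk_toWord, inv_one, mul_one] at h5
  exact h5

/-! ### The theta graph -/

def srcT : Fin 3 → Bool := fun _ => false
def tgtT : Fin 3 → Bool := fun _ => true
noncomputable def wT : Fin 3 → ℝ := fun e => if e = 1 then 1 / 2 else 1 / 4

def VT : FreeGroup (Fin 3) := mk [(0, true), (2, false)]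
def UT : FreeGroup (Fin 3) := mk [(0, true), (2, false), (1, true), (2, false)]
def repT (q : Bool) : FreeGroup (Fin 3) := if q then mk [(2, true)] else 1

/-! ### The dumbbell graph -/

def srcD : Fin 3 → Bool := fun e => if e = 1 then true else false
def tgtD : Fin 3 → Bool := fun e => if e = 0 then false else true
noncomputable def wD : Fin 3 → ℝ := fun e => if e = 0 then 1 / 2 else 1 / 4

def VD : FreeGroup (Fin 3) := mk [(0, true)]
def UD : FreeGroup (Fin 3) := mk [(0, true), (2, true), (1, true), (2, false)]
def repD (q : Bool) : FreeGroup (Fin 3) := if q then mk [(2, true)] else 1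

lemma mk_expand4 (a b c d : Fin 3 × Bool) :
    (mk [a, b, c, d] : FreeGroup (Fin 3)) = mk [a] * mk [b] * mk [c] * mk [d] := by
  rw [mul_mk, mul_mk, mul_mk]; rfl

lemma mk_expand2 (a b : Fin 3 × Bool) :
    (mk [a, b] : FreeGroup (Fin 3)) = mk [a] * mk [b] := by
  rw [mul_mk]; rfl

lemma mk_false (e : Fin 3) : (mk [(e, false)] : FreeGroup (Fin 3)) = (mk [(e, true)])⁻¹ :=
  mk_bar (e, true)

lemma retr_letter (N : ℕ) (e : Fin 3) : retr N (mk [(e, true)]) =
    if e = 0 then vN N else if e = 1 then (vN N)⁻¹ * uN N else 1 := by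
  have : (mk [(e, true)] : FreeGroup (Fin 3)) = of e := rfl
  rw [this, retr, lift_apply_of]

lemma mem_closure_pair {V U g : FreeGroup (Fin 3)} (h : g = V ∨ g = V⁻¹ * U ∨ g = 1) :
    g ∈ Subgroup.closure ({V, U} : Set (FreeGroup (Fin 3))) := by
  have hV : V ∈ Subgroup.closure ({V, U} : Set (FreeGroup (Fin 3))) :=
    Subgroup.subset_closure (by simp)
  have hU : U ∈ Subgroup.closure ({V, U} : Set (FreeGroup (Fin 3))) :=
    Subgroup.subset_closure (by simp)
  rcases h with rfl | rfl | rfl
  · exact hV
  · exact Subgroup.mul_mem _ (Subgroup.inv_mem _ hV) hU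
  · exact Subgroup.one_mem _

lemma vN_ne_one (N : ℕ) : vN N ≠ 1 := by
  intro h
  have h1 : (of (1 : Fin 2) : F2) = (of 0 ^ N)⁻¹ := by
    rw [vN] at h
    exact (inv_eq_of_mul_eq_one_right h).symm
  apply not_comm
  rw [h1]; group

lemma fin3 (e : Fin 3) : e = 0 ∨ e = 1 ∨ e = 2 := by
  revert e; decide

/-- The marked theta graph. -/
noncomputable def theta (N : ℕ) : MG where
  src := srcT
  tgt := tgtT
  w := wT
  hw := by
    intro e
    rw [wT]
    split_ifs <;> norm_num
  Θ := Th VT UT N
  closed := Th_closed (by
    change run srcT tgtT false VT.toWord = some false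
    decide) (by
    change run srcT tgtT false UT.toWord = some false
    decide) N
  inj := by
    apply Th_injective
    · rw [VT, mk_expand2, mk_false, _root_.map_mul, _root_.map_inv, retr_letter, retr_letter]
      simp
    · rw [UT, mk_expand4, mk_false, _root_.map_mul, _root_.map_mul, _root_.map_mul,
        _root_.map_inv, retr_letter, retr_letter, retr_letter]
      simp
  surj := Th_surj repT rfl (by
    intro e
    apply mem_closure_pair
    rcases fin3 e with rfl | rfl | rfl
    · left
      rw [VT, mk_expand2, mk_false]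
      simp [repT, srcT, tgtT]
    · right; left
      rw [VT, UT, mk_expand2, mk_expand4, mk_false]
      simp only [repT, srcT, tgtT, if_true, Bool.false_eq_true, if_false]
      group
    · right; right
      change (1 : FreeGroup (Fin 3)) * mk [(2, true)] * (mk [(2, true)])⁻¹ = 1
      group)
  rep := repT
  rep_run := by
    intro q
    cases q <;> decide
  edge_at := by
    intro q
    cases q
    · exact ⟨(0, true), true, by decide⟩
    · exact ⟨(0, false), false, by decide⟩
  ax := by
    intro q
    refine ⟨vN N, vN_ne_one N, ?_⟩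
    rw [Th_vN]
    have key : ∀ n : ℕ, (repT q)⁻¹ * (VT ^ n * repT q) =
        ((repT q)⁻¹ * VT * repT q) ^ n := by
      intro n
      have h := conj_pow (a := (repT q)⁻¹) (b := VT) (i := n)
      rw [inv_inv] at h
      rw [h]; group
    intro n
    have key1 := key 1
    rw [pow_one, pow_one] at key1
    rw [key n, key1]
    cases q
    · have e1 : (repT false)⁻¹ * VT * repT false = mk [(0, true), (2, false)] := by
        simp [repT, VT]
      rw [e1, wn_pow_cyc _ (cyc2 (by decide)), wn_cyc _ (cyc2 (by decide))]
    · have e1 : (repT true)⁻¹ * VT * repT true = mk [(2, false), (0, true)] := by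
        rw [VT, mk_expand2, mk_expand2, mk_false]
        change (mk [(2, true)])⁻¹ * (mk [(0, true)] * (mk [(2, true)])⁻¹) * mk [(2, true)] =
          (mk [(2, true)])⁻¹ * mk [(0, true)]
        group
      rw [e1, wn_pow_cyc _ (cyc2 (by decide)), wn_cyc _ (cyc2 (by decide))]

/-- The marked dumbbell graph. -/
noncomputable def dumbbell (N : ℕ) : MG where
  src := srcD
  tgt := tgtD
  w := wD
  hw := by
    intro e
    rw [wD]
    split_ifs <;> norm_num
  Θ := Th VD UD N
  closed := Th_closed (by
    change run srcD tgtD false VD.toWord = some false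
    decide) (by
    change run srcD tgtD false UD.toWord = some false
    decide) N
  inj := by
    apply Th_injective
    · rw [VD, retr_letter]
      simp
    · rw [UD, mk_expand4, mk_false, _root_.map_mul, _root_.map_mul, _root_.map_mul,
        _root_.map_inv, retr_letter, retr_letter, retr_letter]
      simp
  surj := Th_surj repD rfl (by
    intro e
    apply mem_closure_pair
    rcases fin3 e with rfl | rfl | rfl
    · left
      simp [repD, srcD, tgtD, VD]
    · right; left
      rw [VD, UD, mk_expand4, mk_false]
      simp only [repD, srcD, tgtD, if_true, one_ne_zero, if_false]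
      group
    · right; right
      change (1 : FreeGroup (Fin 3)) * mk [(2, true)] * (mk [(2, true)])⁻¹ = 1
      group)
  rep := repD
  rep_run := by
    intro q
    cases q <;> decide
  edge_at := by
    intro q
    cases q
    · exact ⟨(0, true), false, by decide⟩
    · exact ⟨(1, true), true, by decide⟩
  ax := by
    intro q
    cases q
    · refine ⟨vN N, vN_ne_one N, ?_⟩
      rw [Th_vN]
      intro n
      have e0 : ∀ g : FreeGroup (Fin 3), (repD false)⁻¹ * (g * repD false) = g := by
        intro g; simp [repD]
      rw [e0, e0, VD, wn_pow_cyc _ (cyc1 _), wn_cyc _ (cyc1 _)]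
    · refine ⟨(vN N)⁻¹ * uN N, ?_, ?_⟩
      · intro h
        have h1 := congrArg (Th VD UD N) h
        rw [_root_.map_mul, _root_.map_inv, Th_vN, Th_uN, _root_.map_one] at h1
        have h2 := congrArg toWord h1
        revert h2
        decide
      · rw [_root_.map_mul, _root_.map_inv, Th_vN, Th_uN]
        have key : ∀ n : ℕ, (repD true)⁻¹ * ((VD⁻¹ * UD) ^ n * repD true) =
            mk [(1, true)] ^ n := by
          intro n
          have h := conj_pow (a := (repD true)⁻¹) (b := VD⁻¹ * UD) (i := n)
          rw [inv_inv] at h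
          rw [← mul_assoc, ← h]
          congr 1
          rw [VD, UD, mk_expand4, mk_false]
          simp only [repD, if_true]
          group
        intro n
        have key1 := key 1
        rw [pow_one, pow_one] at key1
        rw [key n, key1, wn_pow_cyc _ (cyc1 _), wn_cyc _ (cyc1 _)]

end Pool.Agent.Helper32.Outer
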