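import Mathlib
import Pool.Agent.Helper32.Outer.Examples

namespace Pool.Agent.Helper32.Outer

open FreeGroup

/-- Words that start with the letter `(0, true)` and do not end with `(0, false)`. -/
def GW (g : FreeGroup (Fin 3)) : Prop :=
  g = 1 ∨ (g.toWord.head? = some (0, true) ∧ g.toWord.getLast? ≠ some (0, false))

lemma GW.mul {g h : FreeGroup (Fin 3)} (w : Fin 3 → ℝ) (hg : GW g) (hh : GW h) :
    GW (g * h) ∧ wn w (g * h) = wn w g + wn w h := by
  rcases hg with rfl | ⟨g1, g2⟩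
  · rw [one_mul, wn_one, zero_add]
    exact ⟨hh, rfl⟩
  rcases hh with rfl | ⟨h1, h2⟩
  · rw [mul_one, wn_one, add_zero]
    exact ⟨Or.inr ⟨g1, g2⟩, rfl⟩
  have key : (g * h).toWord = g.toWord ++ h.toWord := by
    rw [toWord_mul]
    apply IsReduced.reduce_eq
    apply isReduced_append isReduced_toWord isReduced_toWord
    intro a ha b hb hab
    rw [Option.mem_def] at ha hb
    rw [h1, Option.some.injEq] at hb
    subst hb
    by_contra hcon
    apply g2
    rw [ha, Option.some.injEq]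
    refine Prod.ext (show a.1 = 0 from hab) ?_
    cases h5 : a.2
    · rfl
    · exact absurd h5 hcon
  refine ⟨Or.inr ⟨?_, ?_⟩, ?_⟩
  · rw [key, List.head?_append, g1]; rfl
  · rw [key]
    have hne : h.toWord ≠ [] := by
      intro h0; rw [h0] at h1; simp at h1
    rw [List.getLast?_append_of_ne_nil _ hne]
    exact h2
  · rw [wn, key, wt_append]; rfl

lemma GW.pow {g : FreeGroup (Fin 3)} (w : Fin 3 → ℝ) (hg : GW g) (n : ℕ) :
    GW (g ^ n) ∧ wn w (g ^ n) = n * wn w g := by
  induction n with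
  | zero =>
    rw [pow_zero, wn_one]
    exact ⟨Or.inl rfl, by simp⟩
  | succ n ih =>
    rw [pow_succ]
    obtain ⟨h1, h2⟩ := GW.mul w ih.1 hg
    refine ⟨h1, ?_⟩
    rw [h2, ih.2]
    push_cast; ring

lemma tl_def (M : MG) (g : F2) : tl (cover M) g = ⨅ x : Hull (Vg M), dist x (g • x) := rfl

/-- Translation length, read off at a vertex on the axis. -/
lemma tl_of_axis (M : MG) (q : Bool) (g : F2)
    (h : ∀ n : ℕ, wn M.w ((M.rep q)⁻¹ * (M.Θ g ^ n * M.rep q)) =
      n * wn M.w ((M.rep q)⁻¹ * (M.Θ g * M.rep q))) :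
    tl (cover M) g = wn M.w ((M.rep q)⁻¹ * (M.Θ g * M.rep q)) := by
  have h1 : dist (emb (repV M q)) (g • (emb (repV M q) : Hull (Vg M))) =
      wn M.w ((M.rep q)⁻¹ * (M.Θ g * M.rep q)) := by
    have := dist_rep g q 1 (M := M)
    simpa using this
  rw [tl_def, iInf_displacement hull_iso g (emb (repV M q)), h1]
  intro n
  rw [dist_rep, h n, h1]

lemma tl_of_GW (M : MG) (hrep : M.rep false = 1) (g : F2) (h : GW (M.Θ g)) :
    tl (cover M) g = wn M.w (M.Θ g) := by
  have e : ∀ k : FreeGroup (Fin 3), (M.rep false)⁻¹ * (k * M.rep false) = k := by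
    intro k; rw [hrep]; group
  rw [tl_of_axis M false g, e]
  intro n
  rw [e, e]
  exact (GW.pow M.w h n).2

lemma tl_conj (M : MG) (g h : F2) : tl (cover M) (h * g * h⁻¹) = tl (cover M) g :=
  iInf_conj (X := Hull (Vg M)) hull_iso g h

lemma tl_inv (M : MG) (g : F2) : tl (cover M) g⁻¹ = tl (cover M) g :=
  iInf_inv (X := Hull (Vg M)) hull_iso g

lemma wtT (L : List (Fin 3 × Bool)) (hL : FreeGroup.IsReduced L) : wn wT (mk L) = wt wT L := by
  rw [wn, toWord_mk, hL.reduce_eq]

lemma wtD (L : List (Fin 3 × Bool)) (hL : FreeGroup.IsReduced L) : wn wD (mk L) = wt wD L := by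
  rw [wn, toWord_mk, hL.reduce_eq]

lemma GW_VT : GW VT := Or.inr (by decide)
lemma GW_UT : GW UT := Or.inr (by decide)
lemma GW_VD : GW VD := Or.inr (by decide)
lemma GW_UD : GW UD := Or.inr (by decide)

lemma wT0 : wT 0 = 1 / 4 := if_neg (by decide)
lemma wT1 : wT 1 = 1 / 2 := if_pos rfl
lemma wT2 : wT 2 = 1 / 4 := if_neg (by decide)
lemma wD0 : wD 0 = 1 / 2 := if_pos rfl
lemma wD1 : wD 1 = 1 / 4 := if_neg (by decide)
lemma wD2 : wD 2 = 1 / 4 := if_neg (by decide)

lemma wn_V : wn wT VT = wn wD VD := by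
  have h1 : VT.toWord = [(0, true), (2, false)] := by decide
  have h2 : VD.toWord = [(0, true)] := by decide
  rw [wn, wn, h1, h2]
  simp only [wt_cons, wt_nil, wT0, wT1, wT2, wD0, wD1, wD2]
  norm_num

lemma wn_U : wn wT UT = wn wD UD := by
  have h1 : UT.toWord = [(0, true), (2, false), (1, true), (2, false)] := by decide
  have h2 : UD.toWord = [(0, true), (2, true), (1, true), (2, false)] := by decide
  rw [wn, wn, h1, h2]
  simp only [wt_cons, wt_nil, wT0, wT1, wT2, wD0, wD1, wD2]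
  norm_num

/-- On the positive monoid generated by `v_N, u_N` the two graphs have the same lengths. -/
lemma positive_eq (N : ℕ) {W : F2} (hW : W ∈ Submonoid.closure ({vN N, uN N} : Set F2)) :
    GW (Th VT UT N W) ∧ GW (Th VD UD N W) ∧ wn wT (Th VT UT N W) = wn wD (Th VD UD N W) := by
  induction hW using Submonoid.closure_induction with
  | mem g hg =>
    rcases hg with rfl | hg
    · rw [Th_vN, Th_vN]
      exact ⟨GW_VT, GW_VD, wn_V⟩
    · rw [Set.mem_singleton_iff] at hg
      subst hg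
      rw [Th_uN, Th_uN]
      exact ⟨GW_UT, GW_UD, wn_U⟩
  | one =>
    rw [_root_.map_one, _root_.map_one, wn_one, wn_one]
    exact ⟨Or.inl rfl, Or.inl rfl, rfl⟩
  | mul g h _ _ hg hh =>
    rw [_root_.map_mul, _root_.map_mul]
    obtain ⟨a1, a2⟩ := GW.mul wT hg.1 hh.1
    obtain ⟨b1, b2⟩ := GW.mul wD hg.2.1 hh.2.1
    exact ⟨a1, b1, by rw [a2, b2, hg.2.2, hh.2.2]⟩

lemma tl_eq_of_nice (N : ℕ) {s : F2} (hs : Nice (vN N) (uN N) s) :
    tl (cover (theta N)) s = tl (cover (dumbbell N)) s := by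
  obtain ⟨g, W, hW, h⟩ := hs
  obtain ⟨h1, h2, h3⟩ := positive_eq N hW
  have e1 : tl (cover (theta N)) W = wn wT (Th VT UT N W) := tl_of_GW (theta N) rfl W h1
  have e2 : tl (cover (dumbbell N)) W = wn wD (Th VD UD N W) := tl_of_GW (dumbbell N) rfl W h2
  rcases h with rfl | rfl
  · rw [tl_conj, tl_conj, e1, e2, h3]
  · rw [tl_conj, tl_conj, tl_inv, tl_inv, e1, e2, h3]

lemma tl_theta_beta (N : ℕ) : tl (cover (theta N)) ((vN N)⁻¹ * uN N) = 3 / 4 := by
  have h1 : (theta N).Θ ((vN N)⁻¹ * uN N) = mk [(1, true), (2, false)] := by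
    change Th VT UT N _ = _
    rw [_root_.map_mul, _root_.map_inv, Th_vN, Th_uN]
    decide
  have e : ∀ k : FreeGroup (Fin 3), ((theta N).rep false)⁻¹ * (k * (theta N).rep false) = k := by
    intro k
    change (1 : FreeGroup (Fin 3))⁻¹ * (k * 1) = k
    group
  rw [tl_of_axis (theta N) false, e, h1, wn_cyc _ (cyc2 (by decide))]
  · change wt wT _ = _
    simp only [wt_cons, wt_nil, wT1, wT2]
    norm_num
  · intro n
    rw [e, e, h1, wn_pow_cyc _ (cyc2 (by decide)), wn_cyc _ (cyc2 (by decide))]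

lemma tl_dumbbell_beta (N : ℕ) : tl (cover (dumbbell N)) ((vN N)⁻¹ * uN N) = 1 / 4 := by
  have key : ∀ n : ℕ, ((dumbbell N).rep true)⁻¹ *
      ((dumbbell N).Θ ((vN N)⁻¹ * uN N) ^ n * (dumbbell N).rep true) = mk [(1, true)] ^ n := by
    intro n
    have h1 : (dumbbell N).Θ ((vN N)⁻¹ * uN N) = VD⁻¹ * UD := by
      change Th VD UD N _ = _
      rw [_root_.map_mul, _root_.map_inv, Th_vN, Th_uN]
    have hr : (dumbbell N).rep true = mk [(2, true)] := rfl
    rw [h1, hr]
    have h := conj_pow (a := (mk [(2, true)] : FreeGroup (Fin 3))⁻¹) (b := VD⁻¹ * UD) (i := n)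
    rw [inv_inv] at h
    rw [← mul_assoc, ← h]
    congr 1
    rw [VD, UD, mk_expand4, mk_false]
    group
  have key1 := key 1
  rw [pow_one, pow_one] at key1
  rw [tl_of_axis (dumbbell N) true, key1, wn_cyc _ (cyc1 _)]
  · change wt wD _ = _
    simp only [wt_cons, wt_nil, wD1]
    norm_num
  · intro n
    rw [key, key1, wn_pow_cyc _ (cyc1 _), wn_cyc _ (cyc1 _)]

lemma tl_of_same {T T' : TreeAction} (h : Same T T') (g : F2) : tl T g = tl T' g := by
  obtain ⟨f, hf⟩ := h
  rw [tl, tl, ← f.toEquiv.iInf_comp]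
  congr 1
  ext x
  change dist x (g • x) = dist (f x) (g • f x)
  rw [← hf, f.dist_eq]

lemma not_same (N : ℕ) : ¬ Same (cover (theta N)) (cover (dumbbell N)) := by
  intro h
  have h1 := tl_of_same h ((vN N)⁻¹ * uN N)
  rw [tl_theta_beta, tl_dumbbell_beta] at h1
  norm_num at h1

lemma covolume_theta (N : ℕ) : HasCovolume (cover (theta N)) 1 := by
  have h := covolume_cover (theta N)
  have e : ∑ e, (theta N).w e = 1 := by
    change ∑ e, wT e = 1
    rw [Fin.sum_univ_three, wT0, wT1, wT2]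
    norm_num
  rwa [e] at h

lemma covolume_dumbbell (N : ℕ) : HasCovolume (cover (dumbbell N)) 1 := by
  have h := covolume_cover (dumbbell N)
  have e : ∑ e, (dumbbell N).w e = 1 := by
    change ∑ e, wD e = 1
    rw [Fin.sum_univ_three, wD0, wD1, wD2]
    norm_num
  rwa [e] at h

/-- For every finite set of primitive elements there are two different points of `CV_2` with the
same translation lengths on it. -/
theorem main {S : Set F2} (hS : S.Finite) (hp : ∀ s ∈ S, IsPrimitive s) :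
    ∃ T T' : TreeAction, HasCovolume T 1 ∧ HasCovolume T' 1 ∧ (∀ g ∈ S, tl T g = tl T' g) ∧
      ¬ Same T T' := by
  obtain ⟨N, hN⟩ := nice_finite hS hp
  exact ⟨cover (theta N), cover (dumbbell N), covolume_theta N, covolume_dumbbell N,
    fun g hg => tl_eq_of_nice N (hN g hg), not_same N⟩

end Pool.Agent.Helper32.Outer
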